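import Pool.Agent.Helper7.Defs

set_option autoImplicit false

namespace Pool.Agent.Helper92

open Pool.Agent.Helper7

variable {p : ℕ} [hp : Fact p.Prime]

theorem mem_valueGroup_iff (F : IntermediateField ℚ_[p] (PadicAlgCl p)) (x : ℝˣ) :
    x ∈ valueGroup p F ↔ ∃ y : PadicAlgCl p, y ∈ F ∧ y ≠ 0 ∧ ‖y‖ = x := by
  constructor
  · rintro ⟨u, rfl⟩
    refine ⟨algebraMap F (PadicAlgCl p) u, (u : F).2, ?_, rfl⟩
    exact (map_ne_zero _).mpr u.ne_zero
  · rintro ⟨y, hyF, hy0, hyx⟩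
    refine ⟨Units.mk0 ⟨y, hyF⟩ (fun h => hy0 (congrArg Subtype.val h)), ?_⟩
    ext
    exact hyx

theorem mem_valueGroup_bot_iff (x : ℝˣ) :
    x ∈ valueGroup p ⊥ ↔ ∃ k : ℤ, (x : ℝ) = (p : ℝ) ^ k := by
  rw [mem_valueGroup_iff]
  constructor
  · rintro ⟨y, hy, hy0, hyx⟩
    obtain ⟨q, rfl⟩ := IntermediateField.mem_bot.mp hy
    have hq : q ≠ 0 := fun h => hy0 (by rw [h, map_zero])
    refine ⟨-q.valuation, ?_⟩
    rw [← hyx, ← Padic.norm_eq_zpow_neg_valuation hq]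
    exact PadicAlgCl.norm_extends p q
  · rintro ⟨k, hk⟩
    have hp0 : (p : ℚ_[p]) ≠ 0 := by exact_mod_cast hp.out.ne_zero
    refine ⟨algebraMap ℚ_[p] (PadicAlgCl p) ((p : ℚ_[p]) ^ (-k)),
      IntermediateField.mem_bot.mpr ⟨_, rfl⟩, ?_, ?_⟩
    · exact (map_ne_zero _).mpr (zpow_ne_zero _ hp0)
    · have h1 : ‖algebraMap ℚ_[p] (PadicAlgCl p) ((p : ℚ_[p]) ^ (-k))‖ = ‖(p : ℚ_[p]) ^ (-k)‖ :=
        PadicAlgCl.norm_extends p _
      rw [h1, norm_zpow, Padic.norm_p, hk, inv_zpow, zpow_neg, inv_inv]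

/-- Elements of a finite extension have norm a rational power of `p`. -/
theorem exists_norm_pow_eq (F : IntermediateField ℚ_[p] (PadicAlgCl p))
    [FiniteDimensional ℚ_[p] F] {y : PadicAlgCl p} (hy : y ∈ F) (hy0 : y ≠ 0) :
    ∃ k : ℤ, ‖y‖ ^ (Module.finrank ℚ_[p] F) = (p : ℝ) ^ k := by
  have hint : IsIntegral ℚ_[p] y := Algebra.IsIntegral.isIntegral y
  have h1 : ‖y‖ = ‖(minpoly ℚ_[p] y).coeff 0‖ ^ (1 / (minpoly ℚ_[p] y).natDegree : ℝ) := by
    rw [← PadicAlgCl.spectralNorm_eq]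
    exact spectralNorm.spectralNorm_eq_norm_coeff_zero_rpow ℚ_[p] (PadicAlgCl p) y
  have hdeg : (minpoly ℚ_[p] y).natDegree ≠ 0 := (minpoly.natDegree_pos hint).ne'
  have h2 : ‖y‖ ^ (minpoly ℚ_[p] y).natDegree = ‖(minpoly ℚ_[p] y).coeff 0‖ := by
    rw [h1, ← Real.rpow_natCast, ← Real.rpow_mul (norm_nonneg _), one_div,
      inv_mul_cancel₀ (by exact_mod_cast hdeg), Real.rpow_one]
  have hdvd : (minpoly ℚ_[p] y).natDegree ∣ Module.finrank ℚ_[p] F := by
    have h3 : minpoly ℚ_[p] (⟨y, hy⟩ : F) = minpoly ℚ_[p] y := by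
      rw [← minpoly.algebraMap_eq (algebraMap F (PadicAlgCl p)).injective]
      rfl
    rw [← h3]
    exact minpoly.degree_dvd (Algebra.IsIntegral.isIntegral (⟨y, hy⟩ : F))
  obtain ⟨m, hm⟩ := hdvd
  have hc : (minpoly ℚ_[p] y).coeff 0 ≠ 0 := minpoly.coeff_zero_ne_zero hint hy0
  refine ⟨-((minpoly ℚ_[p] y).coeff 0).valuation * m, ?_⟩
  rw [hm, pow_mul, h2, Padic.norm_eq_zpow_neg_valuation hc, zpow_mul, zpow_natCast]

theorem exists_coe_pow_eq (F : IntermediateField ℚ_[p] (PadicAlgCl p))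
    [FiniteDimensional ℚ_[p] F] {x : ℝˣ} (hx : x ∈ valueGroup p F) :
    0 < (x : ℝ) ∧ ∃ k : ℤ, (x : ℝ) ^ (Module.finrank ℚ_[p] F) = (p : ℝ) ^ k := by
  obtain ⟨y, hy, hy0, hyx⟩ := (mem_valueGroup_iff F x).mp hx
  rw [← hyx]
  exact ⟨norm_pos_iff.mpr hy0, exists_norm_pow_eq F hy hy0⟩

/-- The ramification index of a finite extension is nonzero. -/
theorem ramIdx_ne_zero (F : IntermediateField ℚ_[p] (PadicAlgCl p))
    [FiniteDimensional ℚ_[p] F] : ramIdx p F ≠ 0 := by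
  set D := Module.finrank ℚ_[p] F with hD
  have hD0 : D ≠ 0 := (Module.finrank_pos (R := ℚ_[p]) (M := F)).ne'
  have : NeZero D := ⟨hD0⟩
  set N := (valueGroup p ⊥).subgroupOf (valueGroup p F) with hN
  choose hpos k hk using fun b : valueGroup p F => exists_coe_pow_eq F b.2
  have hkey : ∀ b b' : valueGroup p F, ((k b : ℤ) : ZMod D) = (k b' : ℤ) → b⁻¹ * b' ∈ N := by
    intro b b' h
    rw [ZMod.intCast_eq_intCast_iff_dvd_sub] at h
    obtain ⟨m, hm⟩ := h
    rw [hN, Subgroup.mem_subgroupOf, mem_valueGroup_bot_iff]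
    refine ⟨m, ?_⟩
    have hp0 : (0 : ℝ) < p := by exact_mod_cast hp.out.pos
    have hb0 : (0 : ℝ) < ((b : ℝˣ) : ℝ) := hpos b
    have hb0' : (0 : ℝ) < ((b' : ℝˣ) : ℝ) := hpos b'
    have h1 : (((b⁻¹ * b' : valueGroup p F) : ℝˣ) : ℝ) = ((b : ℝˣ) : ℝ)⁻¹ * ((b' : ℝˣ) : ℝ) := by
      simp
    rw [h1]
    apply (pow_left_inj₀ (by positivity) (by positivity) hD0).mp
    rw [mul_pow, inv_pow, hk b, hk b', ← zpow_neg, ← zpow_add₀ hp0.ne', ← zpow_natCast,
      ← zpow_mul]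
    congr 1
    rw [← sub_eq_neg_add, hm]
    ring
  have hinj : Function.Injective (fun q : valueGroup p F ⧸ N => ((k q.out : ℤ) : ZMod D)) := by
    intro q q' h
    have h1 := hkey _ _ h
    rw [← QuotientGroup.eq, QuotientGroup.out_eq', QuotientGroup.out_eq'] at h1
    exact h1
  have : Finite (valueGroup p F ⧸ N) := Finite.of_injective _ hinj
  exact Subgroup.index_ne_zero_of_finite

/-- The norm of an element of `F` to the power `ramIdx` is a power of `p`. -/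
theorem exists_norm_pow_ramIdx (F : IntermediateField ℚ_[p] (PadicAlgCl p))
    [FiniteDimensional ℚ_[p] F] {y : PadicAlgCl p} (hy : y ∈ F) (hy0 : y ≠ 0) :
    ∃ k : ℤ, ‖y‖ ^ ramIdx p F = (p : ℝ) ^ k := by
  have hny : ‖y‖ ≠ 0 := norm_ne_zero_iff.mpr hy0
  have hmem : Units.mk0 ‖y‖ hny ∈ valueGroup p F :=
    (mem_valueGroup_iff F _).mpr ⟨y, hy, hy0, rfl⟩
  have h1 : (⟨_, hmem⟩ : valueGroup p F) ^ ramIdx p F ∈
      (valueGroup p ⊥).subgroupOf (valueGroup p F) := by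
    exact Subgroup.pow_index_mem _ _
  rw [Subgroup.mem_subgroupOf, mem_valueGroup_bot_iff] at h1
  obtain ⟨k, hk⟩ := h1
  exact ⟨k, by simpa using hk⟩

/-! ### Norms of `ζ ^ a - 1` -/

theorem norm_eq_one_of_primitive {n : ℕ} {ζ : PadicAlgCl p} (hζ : IsPrimitiveRoot ζ (p ^ n)) :
    ‖ζ‖ = 1 := by
  have h1 : ‖ζ‖ ^ (p ^ n) = 1 := by rw [← norm_pow, hζ.pow_eq_one, norm_one]
  exact (pow_eq_one_iff_of_nonneg (norm_nonneg _) (pow_ne_zero _ hp.out.ne_zero)).mp h1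

theorem norm_pow_sub_one_le {ζ : PadicAlgCl p} (hζ : ‖ζ‖ = 1) (a : ℕ) :
    ‖ζ ^ a - 1‖ ≤ ‖ζ - 1‖ := by
  rw [← geom_sum_mul ζ a, norm_mul]
  have h1 : ‖∑ i ∈ Finset.range a, ζ ^ i‖ ≤ 1 :=
    IsUltrametricDist.norm_sum_le_of_forall_le_of_nonneg zero_le_one
      (fun i _ => by rw [norm_pow, hζ, one_pow])
  calc _ ≤ 1 * ‖ζ - 1‖ := mul_le_mul_of_nonneg_right h1 (norm_nonneg _)
    _ = _ := one_mul _

theorem norm_sub_one_eq {n : ℕ} {ζ ξ : PadicAlgCl p} (hζ : IsPrimitiveRoot ζ (p ^ n))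
    (hξ : IsPrimitiveRoot ξ (p ^ n)) : ‖ξ - 1‖ = ‖ζ - 1‖ := by
  have : NeZero (p ^ n) := ⟨pow_ne_zero _ hp.out.ne_zero⟩
  obtain ⟨a, _, ha⟩ := hζ.eq_pow_of_pow_eq_one hξ.pow_eq_one
  obtain ⟨b, _, hb⟩ := hξ.eq_pow_of_pow_eq_one hζ.pow_eq_one
  apply le_antisymm
  · rw [← ha]
    exact norm_pow_sub_one_le (norm_eq_one_of_primitive hζ) a
  · rw [← hb]
    exact norm_pow_sub_one_le (norm_eq_one_of_primitive hξ) b

theorem prod_one_sub {n : ℕ} {ζ : PadicAlgCl p}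
    (hζ : IsPrimitiveRoot ζ (p ^ (n + 1))) :
    (p : PadicAlgCl p) = ∏ ξ ∈ primitiveRoots (p ^ (n + 1)) (PadicAlgCl p), (1 - ξ) := by
  have h2 := Polynomial.eval_one_cyclotomic_prime_pow (R := PadicAlgCl p) (p := p) n
  rw [Polynomial.cyclotomic_eq_prod_X_sub_primitiveRoots hζ, Polynomial.eval_prod] at h2
  rw [← h2]
  apply Finset.prod_congr rfl
  intro ξ _
  rw [Polynomial.eval_sub, Polynomial.eval_X, Polynomial.eval_C]

theorem norm_natCast_p : ‖(p : PadicAlgCl p)‖ = (p : ℝ)⁻¹ := by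
  rw [← map_natCast (algebraMap ℚ_[p] (PadicAlgCl p)), PadicAlgCl.norm_extends, Padic.norm_p]

theorem norm_sub_one_pow_totient {n : ℕ} {ζ : PadicAlgCl p}
    (hζ : IsPrimitiveRoot ζ (p ^ (n + 1))) :
    ‖ζ - 1‖ ^ (p ^ (n + 1)).totient = (p : ℝ)⁻¹ := by
  rw [← norm_natCast_p, prod_one_sub hζ, norm_prod, ← hζ.card_primitiveRoots, ← Finset.prod_const]
  apply Finset.prod_congr rfl
  intro ξ hξ
  rw [norm_sub_rev 1 ξ]
  exact (norm_sub_one_eq hζ (isPrimitiveRoot_of_mem_primitiveRoots hξ)).symm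

/-! ### The image of Galois in `(ℤ/p^n)ˣ` -/

/-- The image in `(ℤ/p^n)ˣ` of the Galois group over `F` has index at most `ramIdx p F`. -/
theorem index_map_le {n : ℕ} {ζ : PadicAlgCl p} (hζ : IsPrimitiveRoot ζ (p ^ (n + 1)))
    (F : IntermediateField ℚ_[p] (PadicAlgCl p)) [FiniteDimensional ℚ_[p] F] :
    (F.fixingSubgroup.map (hζ.autToPow ℚ_[p])).index ≤ ramIdx p F := by
  classical
  set H := F.fixingSubgroup.map (hζ.autToPow ℚ_[p]) with hH
  set N : PadicAlgCl p := ∏ a : H, (ζ ^ ((a : (ZMod (p ^ (n + 1)))ˣ) : ZMod (p ^ (n + 1))).val - 1)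
    with hN
  have hprim : ∀ a : (ZMod (p ^ (n + 1)))ˣ,
      IsPrimitiveRoot (ζ ^ (a : ZMod (p ^ (n + 1))).val) (p ^ (n + 1)) := fun a =>
    hζ.pow_of_coprime _ (ZMod.val_coe_unit_coprime a)
  have hone : 1 < p ^ (n + 1) := Nat.one_lt_pow (Nat.succ_ne_zero n) hp.out.one_lt
  have hN0 : N ≠ 0 := by
    rw [hN, Finset.prod_ne_zero_iff]
    intro a _
    exact sub_ne_zero.mpr ((hprim a).ne_one hone)
  have hmulval : ∀ a b : (ZMod (p ^ (n + 1)))ˣ, ζ ^ ((a * b : (ZMod (p ^ (n + 1)))ˣ) :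
      ZMod (p ^ (n + 1))).val =
      (ζ ^ (a : ZMod (p ^ (n + 1))).val) ^ (b : ZMod (p ^ (n + 1))).val := by
    intro a b
    rw [Units.val_mul, ZMod.val_mul, ← pow_mul]
    have h1 := pow_mod_orderOf ζ ((a : ZMod (p ^ (n + 1))).val * (b : ZMod (p ^ (n + 1))).val)
    rwa [← hζ.eq_orderOf] at h1
  have hNF : N ∈ F := by
    rw [← InfiniteGalois.fixedField_fixingSubgroup F, IntermediateField.mem_fixedField_iff]
    intro σ hσ
    have hσH : hζ.autToPow ℚ_[p] σ ∈ H := ⟨σ, hσ, rfl⟩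
    rw [hN, map_prod]
    refine Fintype.prod_equiv (Equiv.mulLeft (⟨_, hσH⟩ : H)) _ _ ?_
    intro a
    rw [map_sub, map_one, map_pow, ← hζ.autToPow_spec ℚ_[p] σ, Equiv.coe_mulLeft, Subgroup.coe_mul,
      hmulval]
  have hnorm : ‖N‖ = ‖ζ - 1‖ ^ Nat.card H := by
    rw [hN, norm_prod, Nat.card_eq_fintype_card, ← Finset.card_univ, ← Finset.prod_const]
    apply Finset.prod_congr rfl
    intro a _
    exact norm_sub_one_eq hζ (hprim a)
  obtain ⟨k, hk⟩ := exists_norm_pow_ramIdx F hNF hN0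
  set e := ramIdx p F with he
  set h := Nat.card H with hh
  set φ := (p ^ (n + 1)).totient with hφ
  have h1 : (p : ℝ) ^ (-((h * e : ℕ) : ℤ)) = (p : ℝ) ^ (k * (φ : ℤ)) := by
    rw [zpow_neg, zpow_natCast, ← inv_pow, ← norm_sub_one_pow_totient hζ, ← pow_mul, mul_comm,
      pow_mul, pow_mul, ← hnorm, hk, zpow_mul, zpow_natCast]
  have hp1 : (1 : ℝ) < p := by exact_mod_cast hp.out.one_lt
  have h2 : -((h * e : ℕ) : ℤ) = k * (φ : ℤ) :=
    (zpow_right_injective₀ (by positivity) hp1.ne') h1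
  have h3 : φ ∣ h * e := by
    have : (φ : ℤ) ∣ ((h * e : ℕ) : ℤ) := ⟨-k, by linarith⟩
    exact_mod_cast this
  have h4 : H.index * h = φ := by
    rw [hh, Subgroup.index_mul_card, Nat.card_eq_fintype_card, ZMod.card_units_eq_totient]
  have hhpos : 0 < h := Nat.card_pos
  have h5 : H.index ∣ e := by
    rw [← h4, mul_comm h e] at h3
    exact Nat.dvd_of_mul_dvd_mul_right hhpos h3
  exact Nat.le_of_dvd (Nat.pos_of_ne_zero (ramIdx_ne_zero F)) h5

/-! ### Coefficients of multiples of the cyclotomic polynomial -/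

open Polynomial in
theorem coeff_of_cyclotomic_dvd {n : ℕ} {P : ℚ[X]} (hdeg : P.natDegree < p ^ (n + 1))
    (hdvd : cyclotomic (p ^ (n + 1)) ℚ ∣ P) {j k k' : ℕ} (hj : j < p ^ n) (hk : k < p)
    (hk' : k' < p) : P.coeff (j + k * p ^ n) = P.coeff (j + k' * p ^ n) := by
  obtain ⟨Q, rfl⟩ := hdvd
  by_cases hQ : Q = 0
  · simp [hQ]
  have hQdeg : Q.natDegree < p ^ n := by
    rw [natDegree_mul (cyclotomic_ne_zero _ _) hQ, natDegree_cyclotomic,
      Nat.totient_prime_pow_succ hp.out, pow_succ] at hdeg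
    have h1 : p ^ n * (p - 1) + p ^ n = p ^ n * p := by
      have : p ^ n * (p - 1) + p ^ n * 1 = p ^ n * p := by
        rw [← mul_add, Nat.sub_add_cancel hp.out.one_le]
      simpa using this
    omega
  have key : ∀ k, k < p → (cyclotomic (p ^ (n + 1)) ℚ * Q).coeff (j + k * p ^ n) = Q.coeff j := by
    intro k hk
    rw [cyclotomic_prime_pow_eq_geom_sum hp.out, Finset.sum_mul, finsetSum_coeff,
      Finset.sum_eq_single k]
    · rw [← pow_mul, coeff_X_pow_mul', if_pos (by rw [mul_comm]; omega)]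
      congr 1
      rw [mul_comm k]
      omega
    · intro i _ hik
      rw [← pow_mul, coeff_X_pow_mul']
      split_ifs with hle
      · apply coeff_eq_zero_of_natDegree_lt
        refine hQdeg.trans_le ?_
        have hik' : i < k := by
          by_contra hcon
          have h1 : k + 1 ≤ i := by omega
          have h2 : p ^ n * (k + 1) ≤ p ^ n * i := Nat.mul_le_mul_left _ h1
          have h3 : p ^ n * (k + 1) = k * p ^ n + p ^ n := by ring
          omega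
        have h2 : p ^ n * (i + 1) ≤ p ^ n * k := Nat.mul_le_mul_left _ hik'
        have h3 : p ^ n * (i + 1) = p ^ n * i + p ^ n := by ring
        have h4 : p ^ n * k = k * p ^ n := by ring
        omega
      · rfl
    · intro h
      exact absurd (Finset.mem_range.mpr hk) h
  rw [key k hk, key k' hk']

/-! ### Residues of `p`-adic integers -/

theorem toZModPow_eq_natCast_val {m n : ℕ} (h : m ≤ n) (x : ℤ_[p]) :
    PadicInt.toZModPow m x = (((PadicInt.toZModPow n x).val : ℕ) : ZMod (p ^ m)) := by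
  have : NeZero (p ^ n) := ⟨pow_ne_zero _ hp.out.ne_zero⟩
  rw [← PadicInt.zmod_cast_comp_toZModPow m n h, RingHom.comp_apply, ZMod.castHom_apply,
    ZMod.natCast_val]

theorem toZModPow_eq_of_le {m n : ℕ} (h : m ≤ n) {x y : ℤ_[p]}
    (hxy : PadicInt.toZModPow n x = PadicInt.toZModPow n y) :
    PadicInt.toZModPow m x = PadicInt.toZModPow m y := by
  rw [toZModPow_eq_natCast_val h, toZModPow_eq_natCast_val h, hxy]

/-- A finite set of `p`-adic integers is separated modulo `p ^ m` for large `m`. -/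
theorem exists_separating (Y : Finset ℤ_[p]) :
    ∃ N, ∀ m ≥ N, ∀ x ∈ Y, ∀ y ∈ Y, PadicInt.toZModPow m x = PadicInt.toZModPow m y → x = y := by
  classical
  have h1 : ∀ q : ℤ_[p] × ℤ_[p], ∃ N, q.1 ≠ q.2 →
      PadicInt.toZModPow N q.1 ≠ PadicInt.toZModPow N q.2 := by
    intro q
    by_cases hq : q.1 = q.2
    · exact ⟨0, fun h => absurd hq h⟩
    · by_contra hcon
      push Not at hcon
      exact hq (PadicInt.ext_of_toZModPow.mp fun n => (hcon n).2)
  choose N hN using h1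
  refine ⟨(Y ×ˢ Y).sup N, ?_⟩
  intro m hm x hx y hy hxy
  by_contra hne
  apply hN (x, y) hne
  refine toZModPow_eq_of_le (le_trans ?_ hm) hxy
  exact Finset.le_sup (f := N) (Finset.mk_mem_product hx hy)

open Polynomial in
/-- If `∑ ζ^(u s_i) = ∑ ζ^(s_i)` and all the exponents are separated modulo `p^n`, then
multiplication by `u` preserves the set of the `s_i`. -/
theorem exists_eq_mul_of_sum_eq {ι : Type*} [Fintype ι] (s : ι → ℤ_[p]) (u : ℤ_[p]) {n : ℕ}
    {ζ : PadicAlgCl p} (hζ : IsPrimitiveRoot ζ (p ^ (n + 1))) (Y : Finset ℤ_[p])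
    (hY1 : ∀ i, s i ∈ Y) (hY2 : ∀ i, u * s i ∈ Y)
    (hsep : ∀ x ∈ Y, ∀ y ∈ Y, PadicInt.toZModPow n x = PadicInt.toZModPow n y → x = y)
    (hsum : ∑ i, ζ ^ (PadicInt.toZModPow (n + 1) (u * s i)).val =
      ∑ i, ζ ^ (PadicInt.toZModPow (n + 1) (s i)).val) (i₀ : ι) : ∃ i, s i = u * s i₀ := by
  classical
  have hNZ : NeZero (p ^ (n + 1)) := ⟨pow_ne_zero _ hp.out.ne_zero⟩
  let v : ℤ_[p] → ℕ := fun x => (PadicInt.toZModPow (n + 1) x).val
  have hvlt : ∀ x, v x < p ^ (n + 1) := fun x => ZMod.val_lt _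
  have hvinj : ∀ x ∈ Y, ∀ y ∈ Y, v x % p ^ n = v y % p ^ n → x = y := by
    intro x hx y hy hxy
    apply hsep x hx y hy
    rw [toZModPow_eq_natCast_val (Nat.le_succ n) x, toZModPow_eq_natCast_val (Nat.le_succ n) y]
    exact (ZMod.natCast_eq_natCast_iff _ _ _).mpr hxy
  set P : ℚ[X] := ∑ i, (X : ℚ[X]) ^ v (u * s i) - ∑ i, (X : ℚ[X]) ^ v (s i) with hP
  have hPdeg : P.natDegree < p ^ (n + 1) := by
    have h1 : P ∈ degreeLT ℚ (p ^ (n + 1)) := by
      apply Submodule.sub_mem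
      · apply Submodule.sum_mem
        intro i _
        rw [mem_degreeLT, degree_X_pow]
        exact_mod_cast hvlt _
      · apply Submodule.sum_mem
        intro i _
        rw [mem_degreeLT, degree_X_pow]
        exact_mod_cast hvlt _
    by_cases hP0 : P = 0
    · rw [hP0, natDegree_zero]
      exact Nat.pos_of_ne_zero hNZ.out
    · rw [mem_degreeLT, degree_eq_natDegree hP0] at h1
      exact_mod_cast h1
  have hPdvd : cyclotomic (p ^ (n + 1)) ℚ ∣ P := by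
    rw [cyclotomic_eq_minpoly_rat hζ (Nat.pos_of_ne_zero hNZ.out)]
    apply minpoly.dvd
    rw [hP, map_sub, map_sum, map_sum]
    simp only [map_pow, aeval_X]
    exact sub_eq_zero.mpr hsum
  have hcoeff : ∀ r, P.coeff r = ((Finset.univ.filter fun i => v (u * s i) = r).card : ℚ) -
      ((Finset.univ.filter fun i => v (s i) = r).card : ℚ) := by
    intro r
    rw [hP, coeff_sub, finsetSum_coeff, finsetSum_coeff]
    simp only [coeff_X_pow, Finset.sum_boole]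
    simp only [eq_comm (a := r)]
  by_contra hcon
  push Not at hcon
  set c := u * s i₀ with hc
  have hcY : c ∈ Y := hY2 i₀
  set r := v c with hr
  have hr0 : P.coeff r ≠ 0 := by
    rw [hcoeff]
    have h1 : (Finset.univ.filter fun i => v (s i) = r) = ∅ := by
      rw [Finset.filter_eq_empty_iff]
      intro i _ hi
      exact hcon i (hvinj _ (hY1 i) _ hcY (by rw [hi]))
    have h2 : 0 < (Finset.univ.filter fun i => v (u * s i) = r).card :=
      Finset.card_pos.mpr ⟨i₀, by simp [hr, hc]⟩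
    rw [h1, Finset.card_empty, Nat.cast_zero, sub_zero]
    exact_mod_cast h2.ne'
  have hpn : 0 < p ^ n := pow_pos hp.out.pos n
  have hk : r / p ^ n < p := by
    rw [Nat.div_lt_iff_lt_mul hpn, ← pow_succ']
    exact hvlt c
  obtain ⟨k', hk', hkk'⟩ : ∃ k', k' < p ∧ k' ≠ r / p ^ n := by
    by_cases h0 : r / p ^ n = 0
    · exact ⟨1, hp.out.one_lt, by omega⟩
    · exact ⟨0, hp.out.pos, by omega⟩
  have h3 := coeff_of_cyclotomic_dvd hPdeg hPdvd (Nat.mod_lt r hpn) hk hk'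
  rw [mul_comm (r / p ^ n), Nat.mod_add_div] at h3
  have h4 : P.coeff (r % p ^ n + k' * p ^ n) ≠ 0 := h3 ▸ hr0
  have hmod : (r % p ^ n + k' * p ^ n) % p ^ n = r % p ^ n := by
    rw [Nat.add_mul_mod_self_right, Nat.mod_mod]
  have hdiv : (r % p ^ n + k' * p ^ n) / p ^ n = k' := by
    rw [Nat.add_mul_div_right _ _ hpn, Nat.div_eq_of_lt (Nat.mod_lt r hpn), zero_add]
  have hcontra : ∀ y ∈ Y, v y ≠ r % p ^ n + k' * p ^ n := by
    intro y hy hvy
    have h5 : y = c := hvinj y hy c hcY (by rw [hvy, hmod])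
    apply hkk'
    rw [← hdiv, ← hvy, h5]
  rw [hcoeff] at h4
  apply h4
  have h5 : (Finset.univ.filter fun i => v (u * s i) = r % p ^ n + k' * p ^ n) = ∅ := by
    rw [Finset.filter_eq_empty_iff]
    intro i _
    exact hcontra _ (hY2 i)
  have h6 : (Finset.univ.filter fun i => v (s i) = r % p ^ n + k' * p ^ n) = ∅ := by
    rw [Finset.filter_eq_empty_iff]
    intro i _
    exact hcontra _ (hY1 i)
  rw [h5, h6]
  simp

/-- Endgame: unbounded ramification from exponential sums. -/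
theorem ramIdx_gt_of_mem {ι : Type*} [Fintype ι] (s : ι → ℤ_[p])
    (hs : ∃ i, s i ≠ 0) (B : ℕ) :
    ∃ n₀ : ℕ, ∀ n ≥ n₀, ∀ ζ : PadicAlgCl p, IsPrimitiveRoot ζ (p ^ n) →
      ∀ F : IntermediateField ℚ_[p] (PadicAlgCl p), FiniteDimensional ℚ_[p] F →
        (∑ i, ζ ^ (PadicInt.toZModPow n (s i)).val) ∈ F → B < ramIdx p F := by
  classical
  set a : ℕ := 1 + p with ha
  set u : ℕ := a ^ B.factorial with hu
  set Y : Finset ℤ_[p] := Finset.univ.image s ∪ Finset.univ.image (fun i => (u : ℤ_[p]) * s i)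
    with hY
  obtain ⟨N, hN⟩ := exists_separating Y
  refine ⟨N + 1, ?_⟩
  intro m hm ζ hζ F hF hmem
  obtain ⟨n, rfl⟩ : ∃ n, m = n + 1 := ⟨m - 1, by omega⟩
  have hNZ : NeZero (p ^ (n + 1)) := ⟨pow_ne_zero _ hp.out.ne_zero⟩
  by_contra hcon
  have hidx : (F.fixingSubgroup.map (hζ.autToPow ℚ_[p])).index ≤ B :=
    (index_map_le hζ F).trans (by omega)
  have hcop : Nat.Coprime a (p ^ (n + 1)) := by
    apply Nat.Coprime.pow_right
    rw [ha, Nat.coprime_add_self_left]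
    exact Nat.coprime_one_left p
  have hUmem : (ZMod.unitOfCoprime a hcop) ^ B.factorial ∈
      F.fixingSubgroup.map (hζ.autToPow ℚ_[p]) := by
    apply Subgroup.pow_mem_of_index_ne_zero_of_dvd Subgroup.index_ne_zero_of_finite
    intro j hj0 hj
    exact Nat.dvd_factorial hj0 (hj.trans hidx)
  obtain ⟨σ, hσF, hσ⟩ := hUmem
  have hσζ : σ ζ = ζ ^ u := by
    rw [← hζ.autToPow_spec ℚ_[p] σ]
    have h1 : ((hζ.autToPow ℚ_[p] σ : (ZMod (p ^ (n + 1)))ˣ) : ZMod (p ^ (n + 1))) =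
        ((u : ℕ) : ZMod (p ^ (n + 1))) := by
      have h2 : hζ.autToPow ℚ_[p] σ = (ZMod.unitOfCoprime a hcop) ^ B.factorial := hσ
      rw [h2, Units.val_pow_eq_pow_val, ZMod.coe_unitOfCoprime, hu, Nat.cast_pow]
    rw [h1, ZMod.val_natCast]
    have h3 := pow_mod_orderOf ζ u
    rwa [← hζ.eq_orderOf] at h3
  have hfix : σ (∑ i, ζ ^ (PadicInt.toZModPow (n + 1) (s i)).val) =
      ∑ i, ζ ^ (PadicInt.toZModPow (n + 1) (s i)).val := by
    exact (IntermediateField.mem_fixingSubgroup_iff F σ).mp hσF _ hmem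
  have hsum : ∑ i, ζ ^ (PadicInt.toZModPow (n + 1) ((u : ℤ_[p]) * s i)).val =
      ∑ i, ζ ^ (PadicInt.toZModPow (n + 1) (s i)).val := by
    rw [← hfix, map_sum]
    apply Finset.sum_congr rfl
    intro i _
    rw [map_pow, hσζ, ← pow_mul, map_mul, map_natCast, ZMod.val_mul, ZMod.val_natCast]
    have h3 := pow_mod_orderOf ζ (u % p ^ (n + 1) * (PadicInt.toZModPow (n + 1) (s i)).val)
    rw [← hζ.eq_orderOf] at h3
    rw [h3]
    have h4 := pow_mod_orderOf ζ u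
    rw [← hζ.eq_orderOf] at h4
    rw [pow_mul, pow_mul, h4]
  have hclosed : ∀ i₀, ∃ i, s i = (u : ℤ_[p]) * s i₀ := by
    intro i₀
    refine exists_eq_mul_of_sum_eq s (u : ℤ_[p]) hζ Y ?_ ?_ (hN n (by omega)) hsum i₀
    · intro i
      exact Finset.mem_union_left _ (Finset.mem_image_of_mem s (Finset.mem_univ i))
    · intro i
      exact Finset.mem_union_right _ (Finset.mem_image_of_mem _ (Finset.mem_univ i))
  obtain ⟨i₁, hi₁⟩ := hs
  have hall : ∀ k : ℕ, ∃ i, s i = (u : ℤ_[p]) ^ k * s i₁ := by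
    intro k
    induction k with
    | zero => exact ⟨i₁, by simp⟩
    | succ k ih =>
      obtain ⟨i, hi⟩ := ih
      obtain ⟨i', hi'⟩ := hclosed i
      exact ⟨i', by rw [hi', hi, pow_succ]; ring⟩
  choose f hf using hall
  have hu1 : 1 < u := by
    rw [hu]
    apply Nat.one_lt_pow (Nat.factorial_ne_zero B)
    have := hp.out.pos
    omega
  have hinj : Function.Injective f := by
    intro k k' h
    have h1 : (u : ℤ_[p]) ^ k * s i₁ = (u : ℤ_[p]) ^ k' * s i₁ := by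
      rw [← hf k, ← hf k', h]
    have h2 := mul_right_cancel₀ hi₁ h1
    have h3 : u ^ k = u ^ k' := by exact_mod_cast h2
    exact Nat.pow_right_injective hu1 h3
  exact not_injective_infinite_finite f hinj

end Pool.Agent.Helper92
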