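import Mathlib

set_option autoImplicit false

/-! Logarithmic derivatives of power series over a field of characteristic zero. -/

namespace Pool.Agent.Helper92

open Polynomial

section LogDeriv

variable {F : Type*} [Field F]

/-- The derivation `X d/dX` of power series. -/
noncomputable def th : Derivation F (PowerSeries F) (PowerSeries F) :=
  (PowerSeries.X : PowerSeries F) • PowerSeries.derivative F

lemma th_apply (f : PowerSeries F) : th f = PowerSeries.X * PowerSeries.derivative F f := by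
  rfl

lemma coeff_th (f : PowerSeries F) (m : ℕ) :
    PowerSeries.coeff m (th f) = m * PowerSeries.coeff m f := by
  rw [th_apply]
  cases m with
  | zero => simp
  | succ m =>
    rw [PowerSeries.coeff_succ_X_mul, PowerSeries.coeff_derivative]
    push_cast
    ring

/-- `N` is the logarithmic derivative of `f`. -/
def LD (f N : PowerSeries F) : Prop := th f = N * f

lemma LD.mul {f g N M : PowerSeries F} (hf : LD f N) (hg : LD g M) : LD (f * g) (N + M) := by
  unfold LD at *
  rw [Derivation.leibniz, hf, hg]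
  simp only [smul_eq_mul]
  ring

lemma LD.one : LD (1 : PowerSeries F) 0 := by
  unfold LD
  simp

lemma LD.pow {f N : PowerSeries F} (hf : LD f N) (k : ℕ) : LD (f ^ k) (k * N) := by
  induction k with
  | zero => simpa using LD.one
  | succ k ih =>
    have := ih.mul hf
    rw [pow_succ]
    convert this using 1
    push_cast
    ring

lemma LD.prod {ι : Type*} (s : Finset ι) {f N : ι → PowerSeries F} (h : ∀ i ∈ s, LD (f i) (N i)) :
    LD (∏ i ∈ s, f i) (∑ i ∈ s, N i) := by
  classical
  induction s using Finset.induction_on with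
  | empty => simpa using LD.one
  | insert a s ha ih =>
    rw [Finset.prod_insert ha, Finset.sum_insert ha]
    exact (h a (Finset.mem_insert_self a s)).mul
      (ih fun i hi => h i (Finset.mem_insert_of_mem hi))

lemma LD.inv {f N : PowerSeries F} (hf : LD f N) (h0 : PowerSeries.constantCoeff f ≠ 0) :
    LD f⁻¹ (-N) := by
  unfold LD at *
  rw [th_apply] at *
  rw [PowerSeries.derivative_inv']
  have h1 : f * f⁻¹ = 1 := PowerSeries.mul_inv_cancel f h0
  calc PowerSeries.X * (-f⁻¹ ^ 2 * PowerSeries.derivative F f)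
      = -f⁻¹ ^ 2 * (PowerSeries.X * PowerSeries.derivative F f) := by ring
    _ = -f⁻¹ ^ 2 * (N * f) := by rw [hf]
    _ = -N * f⁻¹ * (f * f⁻¹) := by ring
    _ = -N * f⁻¹ := by rw [h1, mul_one]

lemma LD.unique [CharZero F] {f g N : PowerSeries F} (hf : LD f N) (hg : LD g N)
    (h0 : PowerSeries.constantCoeff g ≠ 0)
    (h : PowerSeries.constantCoeff f = PowerSeries.constantCoeff g) : f = g := by
  have h1 : LD (f * g⁻¹) (N + -N) := hf.mul (hg.inv h0)
  have h2 : f * g⁻¹ = 1 := by
    ext m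
    unfold LD at h1
    have h3 := congrArg (PowerSeries.coeff m) h1
    rw [coeff_th] at h3
    simp only [add_neg_cancel, zero_mul, map_zero, mul_eq_zero, Nat.cast_eq_zero] at h3
    rcases h3 with h3 | h3
    · subst h3
      simp only [PowerSeries.coeff_zero_eq_constantCoeff, map_mul, map_one,
        PowerSeries.constantCoeff_inv]
      rw [h]
      exact mul_inv_cancel₀ h0
    · by_cases hm : m = 0
      · subst hm
        simp only [PowerSeries.coeff_zero_eq_constantCoeff, map_mul, map_one,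
          PowerSeries.constantCoeff_inv]
        rw [h]
        exact mul_inv_cancel₀ h0
      · rw [h3]
        simp [PowerSeries.coeff_one, hm]
  calc f = f * (g⁻¹ * g) := by rw [PowerSeries.inv_mul_cancel g h0, mul_one]
    _ = (f * g⁻¹) * g := by ring
    _ = g := by rw [h2, one_mul]

/-- `∑_{k ≥ 1} d X^(d k)`. -/
noncomputable def T (d : ℕ) : PowerSeries F :=
  PowerSeries.mk fun m => if m ≠ 0 ∧ d ∣ m then (d : F) else 0

lemma LD_one_sub_X_pow {d : ℕ} (hd : 1 ≤ d) :
    LD (1 - (PowerSeries.X : PowerSeries F) ^ d) (-T d) := by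
  unfold LD
  ext m
  rw [coeff_th, neg_mul, map_neg, mul_sub, mul_one, map_sub, map_sub, mul_comm (T d) _,
    PowerSeries.coeff_X_pow_mul', PowerSeries.coeff_one, PowerSeries.coeff_X_pow]
  unfold T
  simp only [PowerSeries.coeff_mk]
  by_cases h0 : m = 0
  · subst h0
    have : ¬ d ≤ 0 := by omega
    simp [this]
  by_cases hdm : d ≤ m
  · by_cases he : m = d
    · subst he
      simp [h0]
    · have h1 : m - d ≠ 0 := by omega
      have h2 : d ∣ m ↔ d ∣ m - d := by
        constructor
        · intro h; exact Nat.dvd_sub h (dvd_refl d)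
        · intro h
          have := Nat.dvd_add h (dvd_refl d)
          rwa [Nat.sub_add_cancel hdm] at this
      by_cases h3 : d ∣ m
      · simp [h0, he, hdm, h1, h3, h2.1 h3]
      · have h4 : ¬ d ∣ m - d := fun h => h3 (h2.2 h)
        simp [h0, he, hdm, h1, h3, h4]
  · have h2 : ¬ d ∣ m := fun h => hdm (Nat.le_of_dvd (by omega) h)
    have h3 : m ≠ d := by omega
    simp [h0, hdm, h2, h3]

lemma LD_one_sub_C_mul_X (a : F) :
    LD (1 - PowerSeries.C a * (PowerSeries.X : PowerSeries F))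
      (-PowerSeries.mk fun m => if m = 0 then 0 else a ^ m) := by
  unfold LD
  ext m
  rw [coeff_th, neg_mul, map_neg, mul_sub, mul_one, map_sub, map_sub,
    mul_comm (PowerSeries.mk _) _, mul_assoc, PowerSeries.coeff_C_mul, PowerSeries.coeff_C_mul,
    PowerSeries.coeff_one]
  cases m with
  | zero => simp
  | succ m =>
    rw [PowerSeries.coeff_succ_X_mul, PowerSeries.coeff_X]
    cases m with
    | zero => simp
    | succ m => simp [pow_succ]; ring

/-- `∑_m (∑_{d ∣ m} d c_d) X^m`. -/
noncomputable def H (c : ℕ → ℕ) : PowerSeries F :=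
  PowerSeries.mk fun m => ∑ d ∈ m.divisors, (d : F) * c d

/-- `∑_{m ≥ 1} (1 + q^m) X^m`. -/
noncomputable def K (q : ℕ) : PowerSeries F :=
  PowerSeries.mk fun m => if m = 0 then 0 else 1 + (q : F) ^ m

lemma LD_W (q : ℕ) :
    LD ((1 - (PowerSeries.X : PowerSeries F)) * (1 - PowerSeries.C (q : F) * PowerSeries.X))
      (-K q) := by
  have h1 := (LD_one_sub_C_mul_X (1 : F)).mul (LD_one_sub_C_mul_X (q : F))
  convert h1 using 1
  · simp
  · ext m
    simp only [K, map_neg, map_add, PowerSeries.coeff_mk]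
    split_ifs
    · simp
    · simp
      ring

lemma LD_G (c : ℕ → ℕ) (N : ℕ) :
    LD (∏ d ∈ Finset.Icc 1 N, (1 - (PowerSeries.X : PowerSeries F) ^ d) ^ c d)
      (∑ d ∈ Finset.Icc 1 N, (c d : PowerSeries F) * (-T d)) :=
  LD.prod _ fun d hd => (LD_one_sub_X_pow (Finset.mem_Icc.1 hd).1).pow (c d)

lemma dvd_H_add (c : ℕ → ℕ) (N : ℕ) :
    (PowerSeries.X : PowerSeries F) ^ (N + 1) ∣
      H c + ∑ d ∈ Finset.Icc 1 N, (c d : PowerSeries F) * (-T d) := by
  rw [PowerSeries.X_pow_dvd_iff]
  intro m hm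
  have h1 : ∀ (n : ℕ) (f : PowerSeries F), PowerSeries.coeff m ((n : PowerSeries F) * f) =
      n * PowerSeries.coeff m f := by
    intro n f
    rw [← nsmul_eq_mul, map_nsmul, nsmul_eq_mul]
  simp only [map_add, map_sum, h1, map_neg, H, T, PowerSeries.coeff_mk]
  by_cases h0 : m = 0
  · subst h0
    simp
  · have h2 : m.divisors = (Finset.Icc 1 N).filter (fun d => d ∣ m) := by
      ext d
      simp only [Nat.mem_divisors, Finset.mem_filter, Finset.mem_Icc]
      constructor
      · rintro ⟨h3, -⟩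
        exact ⟨⟨Nat.pos_of_dvd_of_pos h3 (by omega), by
          have := Nat.le_of_dvd (by omega) h3
          omega⟩, h3⟩
      · rintro ⟨-, h3⟩
        exact ⟨h3, h0⟩
    rw [h2, Finset.sum_filter, ← Finset.sum_add_distrib]
    apply Finset.sum_eq_zero
    intro d _
    by_cases h3 : d ∣ m
    · simp [h0, h3]; ring
    · simp [h3]

/-- An integer polynomial as a power series over `F`. -/
noncomputable def ps (P : ℤ[X]) : PowerSeries F := ((P.map (Int.castRingHom F) : F[X]) :
  PowerSeries F)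

lemma ps_mul (P Q : ℤ[X]) : (ps (P * Q) : PowerSeries F) = ps P * ps Q := by
  simp [ps]

lemma ps_pow (P : ℤ[X]) (n : ℕ) : (ps (P ^ n) : PowerSeries F) = ps P ^ n := by
  simp [ps]

lemma ps_sub (P Q : ℤ[X]) : (ps (P - Q) : PowerSeries F) = ps P - ps Q := by
  simp [ps]

lemma ps_one : (ps 1 : PowerSeries F) = 1 := by
  simp [ps]

lemma ps_X : (ps X : PowerSeries F) = PowerSeries.X := by
  simp [ps]

lemma ps_C (a : ℤ) : (ps (C a) : PowerSeries F) = PowerSeries.C (a : F) := by
  unfold ps
  rw [Polynomial.map_C, Polynomial.coe_C]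
  rfl

lemma ps_prod {ι : Type*} (s : Finset ι) (f : ι → ℤ[X]) :
    (ps (∏ i ∈ s, f i) : PowerSeries F) = ∏ i ∈ s, ps (f i) := by
  classical
  induction s using Finset.induction_on with
  | empty => simp [ps_one]
  | insert a s ha ih => rw [Finset.prod_insert ha, Finset.prod_insert ha, ps_mul, ih]

lemma ps_W (q : ℕ) : (ps ((1 - X) * (1 - C (q : ℤ) * X)) : PowerSeries F) =
    (1 - (PowerSeries.X : PowerSeries F)) * (1 - PowerSeries.C (q : F) * PowerSeries.X) := by
  rw [ps_mul, ps_sub, ps_sub, ps_mul, ps_one, ps_X, ps_C]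
  simp

lemma ps_G (c : ℕ → ℕ) (N : ℕ) : (ps (∏ d ∈ Finset.Icc 1 N, (1 - (X : ℤ[X]) ^ d) ^ c d) :
    PowerSeries F) = ∏ d ∈ Finset.Icc 1 N, (1 - (PowerSeries.X : PowerSeries F) ^ d) ^ c d := by
  simp [ps_prod, ps_pow, ps_sub, ps_one, ps_X]

lemma constantCoeff_G (c : ℕ → ℕ) (N : ℕ) :
    PowerSeries.constantCoeff (∏ d ∈ Finset.Icc 1 N,
      (1 - (PowerSeries.X : PowerSeries F) ^ d) ^ c d) = 1 := by
  rw [map_prod]
  apply Finset.prod_eq_one
  intro d hd
  have : d ≠ 0 := by
    have := (Finset.mem_Icc.1 hd).1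
    omega
  simp [this]

lemma constantCoeff_W (q : ℕ) :
    PowerSeries.constantCoeff ((1 - (PowerSeries.X : PowerSeries F)) *
      (1 - PowerSeries.C (q : F) * PowerSeries.X)) = 1 := by
  simp

/-- The constant coefficient of the numerator is one. -/
lemma constantCoeff_P {q : ℕ} {c : ℕ → ℕ} {P : ℤ[X]}
    (hP : ∀ N : ℕ, (X : ℤ[X]) ^ (N + 1) ∣
      P * ∏ d ∈ Finset.Icc 1 N, (1 - (X : ℤ[X]) ^ d) ^ c d
        - (1 - X) * (1 - C (q : ℤ) * X)) :
    P.coeff 0 = 1 := by
  obtain ⟨R, hR⟩ := hP 0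
  have h1 := congrArg (fun f : ℤ[X] => f.coeff 0) hR
  simp [Polynomial.mul_coeff_zero] at h1
  omega

lemma constantCoeff_ps (P : ℤ[X]) :
    PowerSeries.constantCoeff (ps P : PowerSeries F) = P.coeff 0 := by
  unfold ps
  rw [← PowerSeries.coeff_zero_eq_constantCoeff_apply, Polynomial.coeff_coe, Polynomial.coeff_map]
  simp

/-- The logarithmic derivative of the numerator of the zeta function. -/
lemma LD_P {q : ℕ} {c : ℕ → ℕ} {P : ℤ[X]}
    (hP : ∀ N : ℕ, (X : ℤ[X]) ^ (N + 1) ∣
      P * ∏ d ∈ Finset.Icc 1 N, (1 - (X : ℤ[X]) ^ d) ^ c d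
        - (1 - X) * (1 - C (q : ℤ) * X)) :
    LD (ps P : PowerSeries F) (H c - K q) := by
  unfold LD
  ext m
  suffices h : (PowerSeries.X : PowerSeries F) ^ (m + 1) ∣ th (ps P) - (H c - K q) * ps P by
    rw [PowerSeries.X_pow_dvd_iff] at h
    have := h m (Nat.lt_succ_self m)
    rw [map_sub] at this
    exact sub_eq_zero.1 this
  obtain ⟨R, hR⟩ := hP m
  have h1 : ps P * ∏ d ∈ Finset.Icc 1 m, (1 - (PowerSeries.X : PowerSeries F) ^ d) ^ c d -
      (1 - (PowerSeries.X : PowerSeries F)) * (1 - PowerSeries.C (q : F) * PowerSeries.X) =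
      PowerSeries.X ^ (m + 1) * ps R := by
    rw [← ps_G, ← ps_mul, ← ps_W, ← ps_sub, hR, ps_mul, ps_pow, ps_X]
  set G : PowerSeries F := ∏ d ∈ Finset.Icc 1 m, (1 - (PowerSeries.X : PowerSeries F) ^ d) ^ c d
    with hG
  set W : PowerSeries F := (1 - (PowerSeries.X : PowerSeries F)) *
    (1 - PowerSeries.C (q : F) * PowerSeries.X) with hW
  have hLG : th G = (∑ d ∈ Finset.Icc 1 m, (c d : PowerSeries F) * (-T d)) * G := LD_G c m
  have hLW : th W = -K q * W := LD_W q
  obtain ⟨S, hS⟩ := dvd_H_add (F := F) c m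
  have hG0 : PowerSeries.constantCoeff G = 1 := constantCoeff_G c m
  have hGinv : G * G⁻¹ = 1 := PowerSeries.mul_inv_cancel G (by rw [hG0]; exact one_ne_zero)
  have h2 : th (PowerSeries.X ^ (m + 1) * ps R : PowerSeries F) = PowerSeries.X ^ (m + 1) *
      (((m + 1 : ℕ) : PowerSeries F) * ps R + th (ps R)) := by
    ext k
    rw [coeff_th, PowerSeries.coeff_X_pow_mul', PowerSeries.coeff_X_pow_mul']
    split_ifs with hk
    · have h1 : ∀ (n : ℕ) (f : PowerSeries F) (j : ℕ),
          PowerSeries.coeff j ((n : PowerSeries F) * f) = n * PowerSeries.coeff j f := by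
        intro n f j
        rw [← nsmul_eq_mul, map_nsmul, nsmul_eq_mul]
      rw [map_add, h1, coeff_th, Nat.cast_sub hk]
      ring
    · simp
  have h3 : th (ps P) * G + ps P * th G - th W = PowerSeries.X ^ (m + 1) *
      (((m + 1 : ℕ) : PowerSeries F) * ps R + th (ps R)) := by
    rw [← h2, ← h1, map_sub, Derivation.leibniz (D := th) (a := ps P) (b := G), smul_eq_mul,
      smul_eq_mul, mul_comm G]
    exact congrArg (fun f => f - th W) (add_comm _ _)
  rw [hLG, hLW] at h3
  have h4 : (∑ d ∈ Finset.Icc 1 m, (c d : PowerSeries F) * (-T d)) =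
      PowerSeries.X ^ (m + 1) * S - H c := by
    rw [← hS]; ring
  rw [h4] at h3
  refine ⟨G⁻¹ * ((((m + 1 : ℕ) : PowerSeries F) * ps R + th (ps R)) - ps P * S * G
    + K q * ps R), ?_⟩
  have h5 : W = ps P * G - PowerSeries.X ^ (m + 1) * ps R := by
    rw [← h1]; ring
  rw [h5] at h3
  calc th (ps P) - (H c - K q) * ps P = (G * G⁻¹) * (th (ps P) - (H c - K q) * ps P) := by
        rw [hGinv, one_mul]
    _ = G⁻¹ * (th (ps P) * G + ps P * ((PowerSeries.X ^ (m + 1) * S - H c) * G) -
        -K q * (ps P * G - PowerSeries.X ^ (m + 1) * ps R)) + PowerSeries.X ^ (m + 1) *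
        (G⁻¹ * (K q * ps R - ps P * S * G)) := by ring
    _ = _ := by rw [h3]; ring

/-- A power series with a given logarithmic derivative: the recursion for the coefficients. -/
lemma LD_iff_rec {f N : PowerSeries F} (hN : PowerSeries.coeff 0 N = 0) :
    LD f N ↔ ∀ d : ℕ, (d : F) * PowerSeries.coeff d f =
      ∑ m ∈ Finset.Icc 1 d, PowerSeries.coeff m N * PowerSeries.coeff (d - m) f := by
  unfold LD
  rw [PowerSeries.ext_iff]
  refine forall_congr' fun d => ?_
  rw [coeff_th, PowerSeries.coeff_mul, Finset.Nat.sum_antidiagonal_eq_sum_range_succ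
    (fun i j => PowerSeries.coeff i N * PowerSeries.coeff j f), Finset.sum_range_succ', hN,
    zero_mul, add_zero]
  have : ∑ m ∈ Finset.Icc 1 d, PowerSeries.coeff m N * PowerSeries.coeff (d - m) f =
      ∑ k ∈ Finset.range d, PowerSeries.coeff (k + 1) N * PowerSeries.coeff (d - (k + 1)) f := by
    rw [Finset.range_eq_Ico, Finset.sum_Ico_add' (fun m => PowerSeries.coeff m N *
      PowerSeries.coeff (d - m) f) 0 d 1]
    rfl
  rw [this]

end LogDeriv

end Pool.Agent.Helper92
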