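import Pool.Agent.Helper7.Defs
import Pool.Agent.Helper92.LogD

set_option autoImplicit false

namespace Pool.Agent.Helper92

open Polynomial Pool.Agent.Helper7

/-- The number of closed points of degree `d` of `C_n`. -/
noncomputable def pointCount {p : ℕ} [Fact p.Prime] {V : Type*} (deg : V → ℕ) (a : V → ℤ_[p])
    (cS : ℕ → ℕ) (n d : ℕ) : ℕ :=
  cS d + ∑ᶠ v ∈ {v : V | deg v * addOrderOf (PadicInt.toZModPow n (a v)) = d},
    p ^ n / addOrderOf (PadicInt.toZModPow n (a v))

/-- The contribution of the unramified points. -/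
noncomputable def bC {p : ℕ} [Fact p.Prime] {V : Type*} (deg : V → ℕ) (a : V → ℤ_[p])
    (n d : ℕ) : ℕ :=
  ∑ᶠ v ∈ {v : V | deg v * addOrderOf (PadicInt.toZModPow n (a v)) = d},
    p ^ n / addOrderOf (PadicInt.toZModPow n (a v))

section Basic

variable {p : ℕ} [hp : Fact p.Prime] {V : Type*}

lemma addOrderOf_dvd (n : ℕ) (x : ZMod (p ^ n)) : addOrderOf x ∣ p ^ n := by
  have := addOrderOf_dvd_natCard x
  rwa [Nat.card_zmod] at this

lemma addOrderOf_pos' (n : ℕ) (x : ZMod (p ^ n)) : 0 < addOrderOf x :=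
  Nat.pos_of_dvd_of_pos (addOrderOf_dvd n x) (pow_pos hp.out.pos n)

lemma finite_dvd {deg : V → ℕ} (hfin : ∀ d, {v | deg v = d}.Finite) {m : ℕ} (hm : m ≠ 0) :
    {v | deg v ∣ m}.Finite := by
  have : {v | deg v ∣ m} ⊆ ⋃ d ∈ m.divisors, {v | deg v = d} := by
    intro v hv
    simp only [Set.mem_iUnion]
    exact ⟨deg v, Nat.mem_divisors.2 ⟨hv, hm⟩, rfl⟩
  refine Set.Finite.subset ?_ this
  exact Set.Finite.biUnion (Finset.finite_toSet _) fun d _ => hfin d

/-- The sum over divisors of the contribution of the unramified points. -/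
lemma sum_bC {deg : V → ℕ} (a : V → ℤ_[p])
    (hfin : ∀ d, {v | deg v = d}.Finite) (n m : ℕ) (hm : m ≠ 0) :
    ∑ d ∈ m.divisors, d * bC deg a n d = ∑ v ∈ (finite_dvd hfin hm).toFinset,
      if deg v * addOrderOf (PadicInt.toZModPow n (a v)) ∣ m then deg v * p ^ n else 0 := by
  classical
  have h1 : ∀ d ∈ m.divisors, d * bC deg a n d = ∑ v ∈ (finite_dvd hfin hm).toFinset,
      if deg v * addOrderOf (PadicInt.toZModPow n (a v)) = d then deg v * p ^ n else 0 := by
    intro d hd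
    have hsub : {v : V | deg v * addOrderOf (PadicInt.toZModPow n (a v)) = d} ⊆
        {v | deg v ∣ m} := by
      intro v hv
      exact (Dvd.intro _ hv).trans (Nat.mem_divisors.1 hd).1
    have hf : {v : V | deg v * addOrderOf (PadicInt.toZModPow n (a v)) = d}.Finite :=
      (finite_dvd hfin hm).subset hsub
    unfold bC
    rw [finsum_mem_eq_finite_toFinset_sum _ hf, Finset.mul_sum, ← Finset.sum_filter]
    refine Finset.sum_congr ?_ ?_
    · ext v
      simp only [Set.Finite.mem_toFinset, Set.mem_ofPred_eq, Finset.mem_filter]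
      constructor
      · intro h
        exact ⟨hsub h, h⟩
      · rintro ⟨-, h⟩
        exact h
    · intro v hv
      simp only [Set.Finite.mem_toFinset, Set.mem_ofPred_eq, Finset.mem_filter] at hv
      conv_lhs => rw [← hv.2]
      rw [mul_assoc, Nat.mul_div_cancel' (addOrderOf_dvd n _)]
  rw [Finset.sum_congr rfl h1, Finset.sum_comm]
  refine Finset.sum_congr rfl fun v hv => ?_
  rw [Finset.sum_ite_eq]
  simp only [Nat.mem_divisors, hm, ne_eq, not_false_eq_true, and_true]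

lemma H_add {F : Type*} [Field F] (c c' : ℕ → ℕ) :
    (H (fun d => c d + c' d) : PowerSeries F) = H c + H c' := by
  ext m
  simp only [H, map_add, PowerSeries.coeff_mk]
  rw [← Finset.sum_add_distrib]
  refine Finset.sum_congr rfl fun d _ => ?_
  push_cast
  ring

lemma coeff_H_bC {F : Type*} [Field F] {deg : V → ℕ} (a : V → ℤ_[p])
    (hfin : ∀ d, {v | deg v = d}.Finite) (n m : ℕ) (hm : m ≠ 0) :
    PowerSeries.coeff m (H (bC deg a n) : PowerSeries F) =
        ∑ v ∈ (finite_dvd hfin hm).toFinset,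
          if deg v * addOrderOf (PadicInt.toZModPow n (a v)) ∣ m then
            (deg v : F) * (p : F) ^ n else 0 := by
  have h0 := congrArg (Nat.cast (R := F)) (sum_bC (deg := deg) a hfin n m hm)
  push_cast at h0
  simp only [H, PowerSeries.coeff_mk]
  exact h0

lemma pointCount_eq (deg : V → ℕ) (a : V → ℤ_[p]) (cS : ℕ → ℕ) (n : ℕ) :
    pointCount deg a cS n = fun d => cS d + bC deg a n d := rfl

end Basic

section E2

/-- Ramanujan sums for prime powers. -/
lemma sum_nthRoots {E : Type*} [Field E] [CharZero E] [IsAlgClosed E] (N i : ℕ) (hN : 0 < N) :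
    ∑ z ∈ nthRootsFinset N (1 : E), z ^ i = if N ∣ i then (N : E) else 0 := by
  classical
  have : NeZero N := ⟨hN.ne'⟩
  obtain ⟨z₀, hz₀⟩ := HasEnoughRootsOfUnity.exists_primitiveRoot E N
  have h1 : nthRootsFinset N (1 : E) = (Finset.range N).image (fun k => z₀ ^ k) := by
    ext z
    rw [mem_nthRootsFinset hN, Finset.mem_image]
    constructor
    · intro h
      obtain ⟨k, hk, hk'⟩ := hz₀.eq_pow_of_pow_eq_one h
      exact ⟨k, Finset.mem_range.2 hk, hk'⟩
    · rintro ⟨k, -, rfl⟩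
      rw [← pow_mul, mul_comm, pow_mul, hz₀.pow_eq_one, one_pow]
  rw [h1, Finset.sum_image]
  · have h2 : ∀ k, (z₀ ^ k) ^ i = (z₀ ^ i) ^ k := fun k => by
      rw [← pow_mul, ← pow_mul, mul_comm]
    simp only [h2]
    split_ifs with h
    · have : z₀ ^ i = 1 := (hz₀.pow_eq_one_iff_dvd i).2 h
      simp [this]
    · have h3 : z₀ ^ i ≠ 1 := fun h' => h ((hz₀.pow_eq_one_iff_dvd i).1 h')
      have h4 : (z₀ ^ i - 1) * ∑ k ∈ Finset.range N, (z₀ ^ i) ^ k = 0 := by
        rw [mul_geom_sum, ← pow_mul, mul_comm, pow_mul, hz₀.pow_eq_one, one_pow, sub_self]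
      rcases mul_eq_zero.1 h4 with h5 | h5
      · exact absurd (sub_eq_zero.1 h5) h3
      · exact h5
  · intro k hk l hl h
    exact hz₀.pow_inj (Finset.mem_range.1 hk) (Finset.mem_range.1 hl) h

lemma sum_primitiveRoots {E : Type*} [Field E] [CharZero E] [IsAlgClosed E] (p : ℕ)
    [hp : Fact p.Prime] (n i : ℕ) :
    ∑ z ∈ primitiveRoots (p ^ (n + 1)) E, z ^ i =
      (if p ^ (n + 1) ∣ i then (p : E) ^ (n + 1) else 0) -
        (if p ^ n ∣ i then (p : E) ^ n else 0) := by
  classical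
  have hpos : ∀ n, 0 < p ^ n := fun n => pow_pos hp.out.pos n
  have h1 := sum_nthRoots (E := E) (p ^ (n + 1)) i (hpos _)
  have h2 := sum_nthRoots (E := E) (p ^ n) i (hpos _)
  push_cast at h1 h2
  rw [← h1, ← h2]
  have h3 : nthRootsFinset (p ^ (n + 1)) (1 : E) =
      primitiveRoots (p ^ (n + 1)) E ∪ nthRootsFinset (p ^ n) (1 : E) := by
    ext z
    rw [Finset.mem_union, mem_nthRootsFinset (hpos _), mem_nthRootsFinset (hpos _),
      mem_primitiveRoots (hpos _)]
    constructor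
    · intro h
      by_cases h4 : z ^ p ^ n = 1
      · exact Or.inr h4
      · left
        rw [IsPrimitiveRoot.iff_orderOf]
        exact orderOf_eq_prime_pow h4 h
    · rintro (h | h)
      · exact h.pow_eq_one
      · rw [pow_succ, pow_mul, h, one_pow]
  have h4 : Disjoint (primitiveRoots (p ^ (n + 1)) E) (nthRootsFinset (p ^ n) (1 : E)) := by
    rw [Finset.disjoint_left]
    intro z hz hz'
    rw [mem_nthRootsFinset (hpos _)] at hz'
    rw [mem_primitiveRoots (hpos _)] at hz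
    have h5 := (hz.pow_eq_one_iff_dvd _).1 hz'
    have h6 := Nat.le_of_dvd (hpos n) h5
    have h7 : p ^ n < p ^ (n + 1) := Nat.pow_lt_pow_right hp.out.one_lt (Nat.lt_succ_self n)
    omega
  rw [h3, Finset.sum_union h4]
  ring

/-- Coefficients of a factor of a polynomial all whose roots lie in a subfield. -/
lemma coeff_mem_of_dvd {K E : Type*} [Field K] [Field E] [Algebra K E] [IsAlgClosed E]
    {Q L : E[X]} (hQ : Q ≠ 0) (hL : L ∣ Q) (hL0 : L.coeff 0 = 1) (F : IntermediateField K E)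
    (hF : ∀ x, Q.IsRoot x → x ∈ F) (d : ℕ) : L.coeff d ∈ F := by
  have hLne : L ≠ 0 := fun h => hQ (by rw [h] at hL; exact zero_dvd_iff.1 hL)
  have hs : L.Splits := IsAlgClosed.splits L
  have h1 : L = C L.leadingCoeff * (L.roots.map (X - C ·)).prod := hs.eq_prod_roots
  set L1 : E[X] := (L.roots.map (X - C ·)).prod with hL1
  have h2 : L1 ∈ Polynomial.liftsRing (algebraMap F E) := by
    apply Subring.multiset_prod_mem
    intro f hf
    obtain ⟨x, hx, rfl⟩ := Multiset.mem_map.1 hf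
    have hxF : x ∈ F := by
      apply hF
      have := (Polynomial.mem_roots hLne).1 hx
      exact this.dvd hL
    apply Subring.sub_mem
    · exact (Polynomial.lifts_iff_liftsRing _ _).1 (Polynomial.X_mem_lifts _)
    · exact (Polynomial.lifts_iff_liftsRing _ _).1 (Polynomial.C_mem_lifts _ (⟨x, hxF⟩ : F))
  have h3 : ∀ k, L1.coeff k ∈ F := by
    intro k
    have h4 := (Polynomial.lifts_iff_coeff_lifts _).1
      ((Polynomial.lifts_iff_liftsRing _ _).2 h2) k
    obtain ⟨y, hy⟩ := h4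
    rw [← hy]
    exact y.2
  have h4 : L.leadingCoeff * L1.coeff 0 = 1 := by
    rw [← Polynomial.coeff_C_mul, ← h1, hL0]
  have h5 : L.leadingCoeff = (L1.coeff 0)⁻¹ := eq_inv_of_mul_eq_one_left h4
  rw [h1, Polynomial.coeff_C_mul, h5]
  exact F.mul_mem (F.inv_mem (h3 0)) (h3 d)

theorem coeff_mem_splittingField {p : ℕ} [hp : Fact p.Prime] (q : ℕ) (hq : 2 ≤ q) {V : Type*}
    (deg : V → ℕ) (hdeg : ∀ v, 0 < deg v) (a : V → ℤ_[p]) (hfin : ∀ d, {v | deg v = d}.Finite)
    (cS : ℕ → ℕ) (n : ℕ) (P P' : ℤ[X])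
    (hP : ∀ N : ℕ, (X : ℤ[X]) ^ (N + 1) ∣
      P * ∏ d ∈ Finset.Icc 1 N, (1 - (X : ℤ[X]) ^ d) ^ pointCount deg a cS n d
        - (1 - X) * (1 - C (q : ℤ) * X))
    (hP' : ∀ N : ℕ, (X : ℤ[X]) ^ (N + 1) ∣
      P' * ∏ d ∈ Finset.Icc 1 N, (1 - (X : ℤ[X]) ^ d) ^ pointCount deg a cS (n + 1) d
        - (1 - X) * (1 - C (q : ℤ) * X))
    (y : PadicAlgCl p → ℕ → PadicAlgCl p)
    (hy0 : ∀ ζ, IsPrimitiveRoot ζ (p ^ (n + 1)) → y ζ 0 = 1)
    (hrec : ∀ ζ, IsPrimitiveRoot ζ (p ^ (n + 1)) → ∀ d : ℕ, (d : PadicAlgCl p) * y ζ d =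
      ∑ m ∈ Finset.Icc 1 d, (∑ᶠ v ∈ {v : V | deg v ∣ m}, (deg v : PadicAlgCl p) *
        (ζ ^ (PadicInt.toZModPow (n + 1) (a v)).val) ^ (m / deg v)) * y ζ (d - m))
    (hpol : ∀ ζ, IsPrimitiveRoot ζ (p ^ (n + 1)) → ∃ N, ∀ d ≥ N, y ζ d = 0) :
    ∀ ζ, IsPrimitiveRoot ζ (p ^ (n + 1)) → ∀ d, y ζ d ∈ splittingFieldQp p P' := by
  classical
  let E := PadicAlgCl p
  have hpos : ∀ n, 0 < p ^ n := fun n => pow_pos hp.out.pos n
  -- the logarithmic derivative of `L_ζ`
  let NN : E → PowerSeries E := fun ζ => PowerSeries.mk fun m => if m = 0 then 0 else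
    ∑ᶠ v ∈ {v : V | deg v ∣ m}, (deg v : E) *
        (ζ ^ (PadicInt.toZModPow (n + 1) (a v)).val) ^ (m / deg v)
  have hLD : ∀ ζ ∈ primitiveRoots (p ^ (n + 1)) E,
      LD (PowerSeries.mk (y ζ)) (NN ζ) := by
    intro ζ hζ
    rw [mem_primitiveRoots (hpos _)] at hζ
    rw [LD_iff_rec (by simp [NN])]
    intro d
    rw [PowerSeries.coeff_mk, hrec ζ hζ d]
    refine Finset.sum_congr rfl fun m hm => ?_
    have hm0 : m ≠ 0 := by
      have := (Finset.mem_Icc.1 hm).1
      omega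
    simp only [NN, PowerSeries.coeff_mk, if_neg hm0]
  have hsum : ∑ ζ ∈ primitiveRoots (p ^ (n + 1)) E, NN ζ =
      H (pointCount deg a cS (n + 1)) - H (pointCount deg a cS n) := by
    rw [pointCount_eq, pointCount_eq, H_add, H_add]
    ext m
    simp only [map_sum, map_sub, map_add]
    by_cases hm : m = 0
    · subst hm
      simp [NN, H]
    have key : ∀ n' : ℕ, PowerSeries.coeff m (H (bC deg a n') : PowerSeries E) =
        ∑ v ∈ (finite_dvd hfin hm).toFinset,
          if deg v * addOrderOf (PadicInt.toZModPow n' (a v)) ∣ m then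
            (deg v : E) * (p : E) ^ n' else 0 := fun n' => coeff_H_bC a hfin n' m hm
    rw [key, key]
    have h1 : ∀ ζ : E, PowerSeries.coeff m (NN ζ) = ∑ v ∈ (finite_dvd hfin hm).toFinset,
        (deg v : E) * ζ ^ ((PadicInt.toZModPow (n + 1) (a v)).val * (m / deg v)) := by
      intro ζ
      simp only [NN, PowerSeries.coeff_mk, if_neg hm]
      rw [finsum_mem_eq_finite_toFinset_sum _ (finite_dvd hfin hm)]
      refine Finset.sum_congr rfl fun v _ => ?_
      rw [← pow_mul]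
    simp only [h1]
    rw [Finset.sum_comm]
    have h2 : ∀ x y z w : E, (x + y) - (x + z) = y - z := fun x y z _ => by ring
    rw [h2 _ _ _ 0, ← Finset.sum_sub_distrib]
    refine Finset.sum_congr rfl fun v hv => ?_
    have hvm : deg v ∣ m := by simpa using hv
    rw [← Finset.mul_sum, sum_primitiveRoots]
    have h3 : ∀ n' ≤ n + 1, (p ^ n' ∣ (PadicInt.toZModPow (n + 1) (a v)).val * (m / deg v) ↔
        deg v * addOrderOf (PadicInt.toZModPow n' (a v)) ∣ m) := by
      intro n' hn'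
      have h4 : (PadicInt.toZModPow n' (a v) : ZMod (p ^ n')) =
          ((PadicInt.toZModPow (n + 1) (a v)).val : ZMod (p ^ n')) := by
        have h5 := congrArg (fun f => f (a v)) (PadicInt.zmod_cast_comp_toZModPow (p := p) n' (n + 1) hn')
        simp only [RingHom.comp_apply] at h5
        rw [← h5, ZMod.castHom_apply]
        rw [ZMod.cast_eq_val]
      rw [← ZMod.natCast_eq_zero_iff, Nat.cast_mul, ← h4, mul_comm, ← nsmul_eq_mul,
        ← addOrderOf_dvd_iff_nsmul_eq_zero, Nat.dvd_div_iff_mul_dvd hvm]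
    simp only [h3 (n + 1) le_rfl, h3 n (Nat.le_succ n)]
    rw [mul_sub, mul_ite, mul_ite, mul_zero]
  have hprod : (ps P' : PowerSeries E) =
      ps P * ∏ ζ ∈ primitiveRoots (p ^ (n + 1)) E, PowerSeries.mk (y ζ) := by
    have h1 : LD (ps P' : PowerSeries E) (H (pointCount deg a cS (n + 1)) - K q) := LD_P hP'
    have h2 : LD (ps P : PowerSeries E) (H (pointCount deg a cS n) - K q) := LD_P hP
    have h3 := h2.mul (LD.prod (primitiveRoots (p ^ (n + 1)) E) hLD)
    rw [hsum] at h3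
    have h4 : H (pointCount deg a cS n) - K q +
        (H (pointCount deg a cS (n + 1)) - H (pointCount deg a cS n)) =
        (H (pointCount deg a cS (n + 1)) - K q : PowerSeries E) := by ring
    rw [h4] at h3
    have h5 : PowerSeries.constantCoeff (ps P * ∏ ζ ∈ primitiveRoots (p ^ (n + 1)) E,
        PowerSeries.mk (y ζ) : PowerSeries E) = 1 := by
      rw [map_mul, constantCoeff_ps, constantCoeff_P hP, map_prod, Finset.prod_eq_one]
      · simp
      · intro ζ hζ
        rw [mem_primitiveRoots (hpos _)] at hζ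
        rw [← PowerSeries.coeff_zero_eq_constantCoeff_apply, PowerSeries.coeff_mk, hy0 ζ hζ]
    apply h1.unique h3
    · rw [h5]; exact one_ne_zero
    · rw [h5, constantCoeff_ps, constantCoeff_P hP']
      simp
  -- polynomials
  have hLp : ∀ ζ, ∃ L : E[X], ζ ∈ primitiveRoots (p ^ (n + 1)) E →
      (L : PowerSeries E) = PowerSeries.mk (y ζ) := by
    intro ζ
    by_cases hζ : ζ ∈ primitiveRoots (p ^ (n + 1)) E
    · obtain ⟨N, hN⟩ := hpol ζ ((mem_primitiveRoots (hpos _)).1 hζ)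
      refine ⟨PowerSeries.trunc N (PowerSeries.mk (y ζ)), fun _ => ?_⟩
      ext d
      rw [Polynomial.coeff_coe, PowerSeries.coeff_trunc, PowerSeries.coeff_mk]
      split_ifs with h
      · rfl
      · exact (hN d (not_lt.1 h)).symm
    · exact ⟨0, fun h => absurd h hζ⟩
  choose Lp hLp using hLp
  have hpoly : P'.map (Int.castRingHom E) = P.map (Int.castRingHom E) *
      ∏ ζ ∈ primitiveRoots (p ^ (n + 1)) E, Lp ζ := by
    apply Polynomial.coe_injective
    rw [Polynomial.coe_mul]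
    have : ((∏ ζ ∈ primitiveRoots (p ^ (n + 1)) E, Lp ζ : E[X]) : PowerSeries E) =
        ∏ ζ ∈ primitiveRoots (p ^ (n + 1)) E, PowerSeries.mk (y ζ) := by
      rw [← Polynomial.coeToPowerSeries.ringHom_apply, map_prod]
      refine Finset.prod_congr rfl fun ζ hζ => ?_
      rw [Polynomial.coeToPowerSeries.ringHom_apply, hLp ζ hζ]
    rw [this]
    exact hprod
  intro ζ hζ d
  have hζ' : ζ ∈ primitiveRoots (p ^ (n + 1)) E := (mem_primitiveRoots (hpos _)).2 hζ
  have hdvd : Lp ζ ∣ P'.map (Int.castRingHom E) := by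
    rw [hpoly]
    exact (Finset.dvd_prod_of_mem Lp hζ').mul_left _
  have hco : ∀ d, (Lp ζ).coeff d = y ζ d := by
    intro d
    rw [← Polynomial.coeff_coe, hLp ζ hζ', PowerSeries.coeff_mk]
  rw [← hco d]
  have hne : P'.map (Int.castRingHom E) ≠ 0 := by
    intro h
    have h1 := congrArg (fun f : E[X] => f.coeff 0) h
    simp only [Polynomial.coeff_map, constantCoeff_P hP', Polynomial.coeff_zero] at h1
    simp at h1
  refine coeff_mem_of_dvd hne hdvd (by rw [hco, hy0 ζ hζ]) _ ?_ d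
  intro x hx
  apply IntermediateField.subset_adjoin
  rw [Polynomial.mem_rootSet]
  constructor
  · rintro rfl
    simp at hne
  · rw [Polynomial.IsRoot, Polynomial.eval_map] at hx
    rw [Polynomial.aeval_def]
    exact hx

end E2

section E1

/-- Nonnegativity and positivity of the coefficients from the recursion. -/
lemma coeff_nonneg {U : PowerSeries ℚ} {c : ℕ → ℕ} (hU : LD U (H c))
    (h0 : PowerSeries.constantCoeff U = 1) (m : ℕ) : 0 ≤ PowerSeries.coeff m U := by
  rw [LD_iff_rec (by simp [H])] at hU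
  induction m using Nat.strong_induction_on with
  | _ m ih =>
    by_cases hm : m = 0
    · subst hm
      rw [PowerSeries.coeff_zero_eq_constantCoeff_apply, h0]
      norm_num
    · have h1 : (0 : ℚ) ≤ m * PowerSeries.coeff m U := by
        rw [hU m]
        apply Finset.sum_nonneg
        intro j hj
        rw [Finset.mem_Icc] at hj
        apply mul_nonneg
        · simp only [H, PowerSeries.coeff_mk]
          exact Finset.sum_nonneg fun d _ => by positivity
        · exact ih (m - j) (by omega)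
      have h2 : (0 : ℚ) < m := by
        have : 0 < m := Nat.pos_of_ne_zero hm
        exact_mod_cast this
      exact nonneg_of_mul_nonneg_right h1 h2

lemma coeff_pos {U : PowerSeries ℚ} {c : ℕ → ℕ} (hU : LD U (H c))
    (h0 : PowerSeries.constantCoeff U = 1) {e m : ℕ} (he : e ∣ m) (hm : m ≠ 0) (hc : c e ≠ 0) :
    0 < PowerSeries.coeff m U := by
  have hU' := hU
  rw [LD_iff_rec (by simp [H])] at hU'
  have h1 : (0 : ℚ) < m * PowerSeries.coeff m U := by
    rw [hU' m]
    apply Finset.sum_pos'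
    · intro j hj
      apply mul_nonneg
      · simp only [H, PowerSeries.coeff_mk]
        exact Finset.sum_nonneg fun d _ => by positivity
      · exact coeff_nonneg hU h0 _
    · refine ⟨m, Finset.mem_Icc.2 ⟨Nat.pos_of_ne_zero hm, le_rfl⟩, ?_⟩
      rw [Nat.sub_self, PowerSeries.coeff_zero_eq_constantCoeff_apply, h0, mul_one]
      simp only [H, PowerSeries.coeff_mk]
      apply Finset.sum_pos' (fun d _ => by positivity)
      refine ⟨e, Nat.mem_divisors.2 ⟨he, hm⟩, ?_⟩
      have he0 : 0 < e := Nat.pos_of_dvd_of_pos he (Nat.pos_of_ne_zero hm)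
      have hc0 : 0 < c e := Nat.pos_of_ne_zero hc
      have h3 : (0 : ℚ) < e := by exact_mod_cast he0
      have h4 : (0 : ℚ) < c e := by exact_mod_cast hc0
      positivity
  have h2 : (0 : ℚ) < m := by
    have : 0 < m := Nat.pos_of_ne_zero hm
    exact_mod_cast this
  exact (mul_pos_iff_of_pos_left h2).1 h1

lemma coeff_eq_zero_of_not_dvd {U : PowerSeries ℚ} {c : ℕ → ℕ} (hU : LD U (H c)) {p : ℕ}
    (hc : ∀ d, ¬ p ∣ d → c d = 0) (m : ℕ) (hm : ¬ p ∣ m) : PowerSeries.coeff m U = 0 := by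
  rw [LD_iff_rec (by simp [H])] at hU
  induction m using Nat.strong_induction_on with
  | _ m ih =>
    have hm0 : m ≠ 0 := by
      rintro rfl
      exact hm (dvd_zero p)
    have h1 : (m : ℚ) * PowerSeries.coeff m U = 0 := by
      rw [hU m]
      apply Finset.sum_eq_zero
      intro j hj
      rw [Finset.mem_Icc] at hj
      by_cases hpj : p ∣ j
      · rw [ih (m - j) (by omega), mul_zero]
        intro h
        apply hm
        have := Nat.dvd_add h hpj
        rwa [Nat.sub_add_cancel hj.2] at this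
      · have : PowerSeries.coeff j (H c : PowerSeries ℚ) = 0 := by
          simp only [H, PowerSeries.coeff_mk]
          apply Finset.sum_eq_zero
          intro d hd
          rw [hc d, Nat.cast_zero, mul_zero]
          intro h
          exact hpj (h.trans (Nat.mem_divisors.1 hd).1)
        rw [this, zero_mul]
    have h2 : (m : ℚ) ≠ 0 := by exact_mod_cast hm0
    exact (mul_eq_zero.1 h1).resolve_left h2

lemma H_cS {F : Type*} [Field F] (c : ℕ → ℕ) (D : ℕ) (hD : ∀ d ≥ D, c d = 0) :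
    (H c : PowerSeries F) + ∑ d ∈ Finset.Icc 1 D, (c d : PowerSeries F) * (-T d) = 0 := by
  ext m
  have h1 := dvd_H_add (F := F) c (max m D)
  rw [PowerSeries.X_pow_dvd_iff] at h1
  have h2 := h1 m (by omega)
  have h3 : ∑ d ∈ Finset.Icc 1 (max m D), (c d : PowerSeries F) * (-T d) =
      ∑ d ∈ Finset.Icc 1 D, (c d : PowerSeries F) * (-T d) := by
    symm
    apply Finset.sum_subset
    · intro d hd
      rw [Finset.mem_Icc] at hd ⊢
      omega
    · intro d hd hd'
      rw [Finset.mem_Icc] at hd hd'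
      rw [hD d (by omega), Nat.cast_zero, zero_mul]
  rw [h3] at h2
  rw [h2, map_zero]

variable {p : ℕ} [hp : Fact p.Prime] {V : Type*}

/-- The numerator times the Euler factors at the ramified points, divided by `(1-X)(1-qX)`. -/
lemma exists_Q (q : ℕ) (deg : V → ℕ) (a : V → ℤ_[p]) (cS : ℕ → ℕ) (D : ℕ)
    (hD : ∀ d ≥ D, cS d = 0) (n : ℕ) (P : ℤ[X])
    (hP : ∀ N : ℕ, (X : ℤ[X]) ^ (N + 1) ∣
      P * ∏ d ∈ Finset.Icc 1 N, (1 - (X : ℤ[X]) ^ d) ^ pointCount deg a cS n d
        - (1 - X) * (1 - C (q : ℤ) * X)) :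
    ∃ (Q : ℚ[X]) (U : PowerSeries ℚ), LD U (H (bC deg a n)) ∧
      PowerSeries.constantCoeff U = 1 ∧
      (Q : PowerSeries ℚ) = ((1 - PowerSeries.X) * (1 - PowerSeries.C (q : ℚ) * PowerSeries.X)) *
        U := by
  set W : PowerSeries ℚ := (1 - PowerSeries.X) * (1 - PowerSeries.C (q : ℚ) * PowerSeries.X)
    with hW
  have hW0 : PowerSeries.constantCoeff W = 1 := constantCoeff_W q
  have hW0' : PowerSeries.constantCoeff W ≠ 0 := by rw [hW0]; exact one_ne_zero
  have hWi : W * W⁻¹ = 1 := PowerSeries.mul_inv_cancel W hW0'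
  refine ⟨(P * ∏ d ∈ Finset.Icc 1 D, (1 - (X : ℤ[X]) ^ d) ^ cS d).map (Int.castRingHom ℚ),
    ps P * (∏ d ∈ Finset.Icc 1 D, (1 - (PowerSeries.X : PowerSeries ℚ) ^ d) ^ cS d) * W⁻¹,
    ?_, ?_, ?_⟩
  · have h1 := ((LD_P (F := ℚ) hP).mul (LD_G cS D)).mul ((LD_W (F := ℚ) q).inv hW0')
    rw [pointCount_eq, H_add] at h1
    convert h1 using 1
    have h2 := H_cS (F := ℚ) cS D hD
    have h3 : ∑ d ∈ Finset.Icc 1 D, (cS d : PowerSeries ℚ) * (-T d) = - H cS := by
      rw [← add_eq_zero_iff_eq_neg']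
      exact h2
    rw [h3]
    ring
  · rw [map_mul, map_mul, constantCoeff_ps, constantCoeff_P hP, constantCoeff_G,
      PowerSeries.constantCoeff_inv, hW0]
    simp
  · have h1 : ((Polynomial.map (Int.castRingHom ℚ)
        (P * ∏ d ∈ Finset.Icc 1 D, (1 - (X : ℤ[X]) ^ d) ^ cS d) : ℚ[X]) : PowerSeries ℚ) =
        ps P * ∏ d ∈ Finset.Icc 1 D, (1 - (PowerSeries.X : PowerSeries ℚ) ^ d) ^ cS d := by
      rw [← ps_G, ← ps_mul]
      rfl
    rw [h1]
    calc ps P * ∏ d ∈ Finset.Icc 1 D, (1 - (PowerSeries.X : PowerSeries ℚ) ^ d) ^ cS d =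
        (ps P * ∏ d ∈ Finset.Icc 1 D, (1 - (PowerSeries.X : PowerSeries ℚ) ^ d) ^ cS d) *
          (W * W⁻¹) := by rw [hWi, mul_one]
      _ = _ := by ring

omit hp in
theorem exists_ne {p : ℕ} [hp : Fact p.Prime] (q : ℕ) (hq : 2 ≤ q) {V : Type*} [Nonempty V]
    (deg : V → ℕ) (hdeg : ∀ v, 0 < deg v) (a : V → ℤ_[p]) (hfin : ∀ d, {v | deg v = d}.Finite)
    (n₀ : ℕ) (cS : ℕ → ℕ → ℕ) (hcS : ∀ n ≥ n₀, ∃ D, ∀ d ≥ D, cS n d = 0) (P : ℕ → ℤ[X])
    (hP : ∀ n ≥ n₀, ∀ N : ℕ, (X : ℤ[X]) ^ (N + 1) ∣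
      P n * ∏ d ∈ Finset.Icc 1 N, (1 - (X : ℤ[X]) ^ d) ^ pointCount deg a (cS n) n d
        - (1 - X) * (1 - C (q : ℤ) * X)) :
    ∃ v w : V, (deg v : ℤ_[p]) * a w ≠ (deg w : ℤ_[p]) * a v := by
  classical
  by_contra hcon
  push Not at hcon
  obtain ⟨v₁⟩ := ‹Nonempty V›
  -- a degree which occurs
  have hbC : ∀ n, bC deg a n (deg v₁ * addOrderOf (PadicInt.toZModPow n (a v₁))) ≠ 0 := by
    intro n
    set e := deg v₁ * addOrderOf (PadicInt.toZModPow n (a v₁)) with he
    have he0 : e ≠ 0 := (Nat.mul_pos (hdeg v₁) (addOrderOf_pos' n _)).ne'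
    have hf : {v : V | deg v * addOrderOf (PadicInt.toZModPow n (a v)) = e}.Finite := by
      refine (finite_dvd hfin he0).subset ?_
      intro v hv
      exact Dvd.intro _ hv
    unfold bC
    rw [finsum_mem_eq_finite_toFinset_sum _ hf]
    have hmem : v₁ ∈ hf.toFinset := by
      rw [Set.Finite.mem_toFinset]
      exact he.symm
    have h1 : 0 < p ^ n / addOrderOf (PadicInt.toZModPow n (a v₁)) :=
      Nat.div_pos (Nat.le_of_dvd (pow_pos hp.out.pos n) (addOrderOf_dvd n _))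
        (addOrderOf_pos' n _)
    have h2 := Finset.single_le_sum
      (f := fun v => p ^ n / addOrderOf (PadicInt.toZModPow n (a v)))
      (fun _ _ => Nat.zero_le _) hmem
    have h3 : p ^ n / addOrderOf (PadicInt.toZModPow n (a v₁)) ≤
      ∑ v ∈ hf.toFinset, p ^ n / addOrderOf (PadicInt.toZModPow n (a v)) := h2
    omega
  have hWpoly : (((1 - X) * (1 - C (q : ℚ) * X) : ℚ[X]) : PowerSeries ℚ) =
      (1 - PowerSeries.X) * (1 - PowerSeries.C (q : ℚ) * PowerSeries.X) := by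
    rw [Polynomial.coe_mul, Polynomial.coe_sub, Polynomial.coe_sub, Polynomial.coe_mul,
      Polynomial.coe_one, Polynomial.coe_X, Polynomial.coe_C]
  -- U is not a polynomial
  have hnotpoly : ∀ n (U : PowerSeries ℚ) (R : ℚ[X]), LD U (H (bC deg a n)) →
      PowerSeries.constantCoeff U = 1 → U ≠ (R : PowerSeries ℚ) := by
    intro n U R hU hU0 h
    set e := deg v₁ * addOrderOf (PadicInt.toZModPow n (a v₁)) with he
    have he0 : e ≠ 0 := (Nat.mul_pos (hdeg v₁) (addOrderOf_pos' n _)).ne'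
    have h1 := coeff_pos hU hU0 (Dvd.intro (R.natDegree + 1) rfl : e ∣ e * (R.natDegree + 1))
      (Nat.mul_ne_zero he0 (Nat.succ_ne_zero _)) (hbC n)
    rw [h, Polynomial.coeff_coe, Polynomial.coeff_eq_zero_of_natDegree_lt] at h1
    · exact lt_irrefl _ h1
    · have : 1 ≤ e := Nat.pos_of_ne_zero he0
      nlinarith
  by_cases hall : ∀ v, a v = 0
  · -- Case 2
    obtain ⟨D, hD⟩ := hcS n₀ le_rfl
    obtain ⟨D', hD'⟩ := hcS (n₀ + 1) (Nat.le_succ _)
    obtain ⟨Q, U, hU, hU0, hQ⟩ := exists_Q q deg a (cS n₀) D hD n₀ (P n₀) (hP n₀ le_rfl)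
    obtain ⟨Q', U', hU', hU0', hQ'⟩ := exists_Q q deg a (cS (n₀ + 1)) D' hD' (n₀ + 1) (P (n₀ + 1))
      (hP (n₀ + 1) (Nat.le_succ _))
    have hb : ∀ d, bC deg a (n₀ + 1) d = p * bC deg a n₀ d := by
      intro d
      unfold bC
      simp only [hall, map_zero, addOrderOf_zero, mul_one, Nat.div_one]
      rw [finsum_mem_eq_finite_toFinset_sum _ (hfin d),
        finsum_mem_eq_finite_toFinset_sum _ (hfin d)]
      simp only [Finset.sum_const, smul_eq_mul]
      rw [pow_succ]
      ring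
    have hHb : (H (bC deg a (n₀ + 1)) : PowerSeries ℚ) = (p : PowerSeries ℚ) * H (bC deg a n₀) := by
      ext m
      rw [← nsmul_eq_mul, map_nsmul, nsmul_eq_mul]
      simp only [H, PowerSeries.coeff_mk, hb]
      rw [Finset.mul_sum]
      refine Finset.sum_congr rfl fun d _ => ?_
      push_cast
      ring
    have hUU : U' = U ^ p := by
      apply LD.unique hU' (N := H (bC deg a (n₀ + 1)))
      · rw [hHb]
        exact hU.pow p
      · rw [map_pow, hU0, one_pow]; exact one_ne_zero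
      · rw [map_pow, hU0, one_pow, hU0']
    have hpoly : Q ^ p = Q' * ((1 - X) * (1 - C (q : ℚ) * X)) ^ (p - 1) := by
      apply Polynomial.coe_injective
      rw [Polynomial.coe_pow, Polynomial.coe_mul, Polynomial.coe_pow, hWpoly, hQ, hQ', hUU]
      obtain ⟨k, hk⟩ : ∃ k, p = k + 1 := ⟨p - 1, by have := hp.out.pos; omega⟩
      rw [hk, Nat.add_sub_cancel, mul_pow]
      ring
    have hdvd : (1 - X) * (1 - C (q : ℚ) * X) ∣ Q ^ p := by
      rw [hpoly]
      exact (dvd_pow_self _ (by have := hp.out.two_le; omega)).mul_left _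
    have hd1 : (1 - X : ℚ[X]) ∣ Q := by
      have hprime : Prime (1 - X : ℚ[X]) := by
        have h1 : Prime (X - C (1 : ℚ)) := Polynomial.prime_X_sub_C 1
        have h2 : (1 - X : ℚ[X]) = -(X - C (1 : ℚ)) := by
          rw [C_1]; ring
        rw [h2]
        exact h1.neg
      exact hprime.dvd_of_dvd_pow ((Dvd.intro _ rfl).trans hdvd)
    have hq0 : (q : ℚ) ≠ 0 := by
      have : q ≠ 0 := by omega
      exact_mod_cast this
    have hd2 : (1 - C (q : ℚ) * X : ℚ[X]) ∣ Q := by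
      have hprime : Prime (1 - C (q : ℚ) * X : ℚ[X]) := by
        apply Irreducible.prime
        apply Polynomial.irreducible_of_degree_eq_one
        have h2 : (1 - C (q : ℚ) * X : ℚ[X]) = C (-(q : ℚ)) * X + C 1 := by
          rw [C_neg, C_1]; ring
        rw [h2]
        exact Polynomial.degree_linear (neg_ne_zero.2 hq0)
      exact hprime.dvd_of_dvd_pow ((Dvd.intro_left _ rfl).trans hdvd)
    have hcop : IsCoprime (1 - X : ℚ[X]) (1 - C (q : ℚ) * X) := by
      have hq1 : (q : ℚ) - 1 ≠ 0 := by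
        have : (2 : ℚ) ≤ q := by exact_mod_cast hq
        linarith
      refine ⟨C ((q : ℚ) / (q - 1)), - C (1 / ((q : ℚ) - 1)), ?_⟩
      have h1 : (C ((q : ℚ) / (q - 1)) : ℚ[X]) = C (q : ℚ) * C (1 / ((q : ℚ) - 1)) := by
        rw [← C_mul]
        congr 1
        ring
      have h2 : (C (q : ℚ) - 1) * C (1 / ((q : ℚ) - 1)) = (1 : ℚ[X]) := by
        rw [← C_1, ← C_sub, ← C_mul]
        congr 1
        field_simp
      calc C ((q : ℚ) / (q - 1)) * (1 - X) + - C (1 / ((q : ℚ) - 1)) * (1 - C (q : ℚ) * X)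
          = (C (q : ℚ) - 1) * C (1 / ((q : ℚ) - 1)) := by rw [h1]; ring
        _ = 1 := h2
    obtain ⟨R, hR⟩ := hcop.mul_dvd hd1 hd2
    apply hnotpoly n₀ U R hU hU0
    have h1 : (Q : PowerSeries ℚ) = ((1 - PowerSeries.X) *
        (1 - PowerSeries.C (q : ℚ) * PowerSeries.X)) * (R : PowerSeries ℚ) := by
      rw [hR, Polynomial.coe_mul, hWpoly]
    rw [hQ] at h1
    have hW0 : ((1 - PowerSeries.X) *
        (1 - PowerSeries.C (q : ℚ) * PowerSeries.X) : PowerSeries ℚ) ≠ 0 := by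
      intro h
      have h2 := constantCoeff_W (F := ℚ) q
      rw [h, map_zero] at h2
      exact zero_ne_one h2
    exact mul_left_cancel₀ hW0 h1
  · -- Case 1
    push Not at hall
    obtain ⟨v₀, hv₀⟩ := hall
    -- choose `n`
    obtain ⟨n, hn, hn'⟩ : ∃ n ≥ n₀, PadicInt.toZModPow n (a v₀) ≠ 0 := by
      by_contra hno
      push Not at hno
      apply hv₀
      apply PadicInt.ext_of_toZModPow.1
      intro n
      rw [map_zero]
      have h1 := hno (max n n₀) (le_max_right _ _)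
      have h2 := congrArg (fun f => f (a v₀))
        (PadicInt.zmod_cast_comp_toZModPow (p := p) n (max n n₀) (le_max_left _ _))
      simp only [RingHom.comp_apply] at h2
      rw [← h2, h1, map_zero]
    obtain ⟨D, hD⟩ := hcS n hn
    obtain ⟨Q, U, hU, hU0, hQ⟩ := exists_Q q deg a (cS n) D hD n (P n) (hP n hn)
    have hb : ∀ d, ¬ p ∣ d → bC deg a n d = 0 := by
      intro d hd
      unfold bC
      apply finsum_mem_of_eqOn_zero
      intro v hv
      exfalso
      apply hd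
      rw [← (hv : deg v * addOrderOf (PadicInt.toZModPow n (a v)) = d)]
      by_contra hnd
      have h1 : ¬ p ∣ deg v := fun h => hnd (h.mul_right _)
      have h2 : ¬ p ∣ addOrderOf (PadicInt.toZModPow n (a v)) := fun h => hnd (h.mul_left _)
      have h3 : addOrderOf (PadicInt.toZModPow n (a v)) = 1 := by
        obtain ⟨k, -, hk⟩ := (Nat.dvd_prime_pow hp.out).1 (addOrderOf_dvd n
          (PadicInt.toZModPow n (a v)))
        rw [hk] at h2 ⊢
        cases k with
        | zero => rfl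
        | succ k => exact absurd (dvd_pow_self p (Nat.succ_ne_zero k)) h2
      have h4 : PadicInt.toZModPow n (a v) = 0 := AddMonoid.addOrderOf_eq_one_iff.1 h3
      have h5 := congrArg (PadicInt.toZModPow n) (hcon v v₀)
      rw [map_mul, map_mul, h4, mul_zero, map_natCast] at h5
      -- deg v is a unit mod p^n
      have h6 : IsUnit ((deg v : ℕ) : ZMod (p ^ n)) := by
        rw [ZMod.isUnit_iff_coprime]
        exact Nat.Coprime.pow_right n ((Nat.Prime.coprime_iff_not_dvd hp.out).2 h1).symm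
      exact hn' ((h6.mul_right_eq_zero).1 h5)
    set e := deg v₁ * addOrderOf (PadicInt.toZModPow n (a v₁)) with he
    have he0 : e ≠ 0 := (Nat.mul_pos (hdeg v₁) (addOrderOf_pos' n _)).ne'
    set m := p * (e * (Q.natDegree + 1)) with hm
    have hp2 := hp.out.two_le
    have hm0 : m ≠ 0 :=
      Nat.mul_ne_zero (by omega) (Nat.mul_ne_zero he0 (Nat.succ_ne_zero _))
    have hmQ : Q.natDegree < m + 1 := by
      have h1 : 1 ≤ e := Nat.pos_of_ne_zero he0
      have h2 : Q.natDegree + 1 ≤ e * (Q.natDegree + 1) := Nat.le_mul_of_pos_left _ h1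
      have h3 : e * (Q.natDegree + 1) ≤ m := Nat.le_mul_of_pos_left _ (by omega)
      omega
    have hpos : 0 < PowerSeries.coeff m U :=
      coeff_pos hU hU0 ((Dvd.intro _ rfl : e ∣ e * (Q.natDegree + 1)).mul_left p) hm0 (hbC n)
    have h1 : PowerSeries.coeff (m + 1) (Q : PowerSeries ℚ) = 0 := by
      rw [Polynomial.coeff_coe]
      exact Polynomial.coeff_eq_zero_of_natDegree_lt hmQ
    obtain ⟨k, hk⟩ : ∃ k, m = k + 1 := ⟨m - 1, by omega⟩
    have hpm : p ∣ m := Dvd.intro _ rfl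
    have h2 : PowerSeries.coeff (m + 1) U = 0 := by
      apply coeff_eq_zero_of_not_dvd hU hb
      intro h
      have := (Nat.dvd_add_right hpm).1 h
      have := Nat.le_of_dvd one_pos this
      omega
    have h3 : PowerSeries.coeff k U = 0 := by
      apply coeff_eq_zero_of_not_dvd hU hb
      intro h
      rw [hk] at hpm
      have := (Nat.dvd_add_right h).1 hpm
      have := Nat.le_of_dvd one_pos this
      omega
    have h4 : (1 - PowerSeries.X) * (1 - PowerSeries.C (q : ℚ) * PowerSeries.X) * U =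
        U - PowerSeries.C (1 + (q : ℚ)) * (PowerSeries.X * U) +
          PowerSeries.C (q : ℚ) * (PowerSeries.X * (PowerSeries.X * U)) := by
      rw [map_add, map_one]
      ring
    rw [hQ, h4, map_add, map_sub, PowerSeries.coeff_C_mul, PowerSeries.coeff_C_mul,
      PowerSeries.coeff_succ_X_mul, PowerSeries.coeff_succ_X_mul, h2, hk,
      PowerSeries.coeff_succ_X_mul, h3, mul_zero, add_zero, zero_sub, neg_eq_zero, ← hk] at h1
    have h5 : (1 + (q : ℚ)) ≠ 0 := by positivity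
    rcases mul_eq_zero.1 h1 with h6 | h6
    · exact h5 h6
    · rw [h6] at hpos
      exact lt_irrefl _ hpos

end E1

section E3

variable {E : Type*} [Field E]

/-- The logarithmic derivative of an Euler factor. -/
lemma LD_euler (d : ℕ) (hd : 0 < d) (α : E) :
    LD (1 - PowerSeries.C α * (PowerSeries.X : PowerSeries E) ^ d)
      (-PowerSeries.mk fun m => if m ≠ 0 ∧ d ∣ m then (d : E) * α ^ (m / d) else 0) := by
  unfold LD
  ext m
  rw [coeff_th, neg_mul, map_neg, mul_sub, mul_one, map_sub, map_sub,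
    mul_comm (PowerSeries.mk _) _, mul_assoc, PowerSeries.coeff_C_mul, PowerSeries.coeff_C_mul,
    PowerSeries.coeff_X_pow_mul', PowerSeries.coeff_one, PowerSeries.coeff_X_pow]
  simp only [PowerSeries.coeff_mk]
  by_cases h0 : m = 0
  · subst h0
    have : ¬ d ≤ 0 := by omega
    have h2 : ¬ 0 = d := by omega
    simp [this, h2]
  by_cases hdm : d ≤ m
  · by_cases he : m = d
    · subst he
      simp [h0, Nat.div_self hd]
    · have h1 : m - d ≠ 0 := by omega
      have h2 : d ∣ m ↔ d ∣ m - d := by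
        constructor
        · intro h; exact Nat.dvd_sub h (dvd_refl d)
        · intro h
          have := Nat.dvd_add h (dvd_refl d)
          rwa [Nat.sub_add_cancel hdm] at this
      by_cases h3 : d ∣ m
      · have h5 : m / d = (m - d) / d + 1 := by
          conv_lhs => rw [← Nat.sub_add_cancel hdm]
          rw [Nat.add_div_right _ hd]
        simp [h0, he, hdm, h1, h3, h2.1 h3, h5, pow_succ]
        ring
      · have h4 : ¬ d ∣ m - d := fun h => h3 (h2.2 h)
        simp [h0, he, hdm, h1, h3, h4]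
  · have h2 : ¬ d ∣ m := fun h => hdm (Nat.le_of_dvd (by omega) h)
    have h3 : m ≠ d := by omega
    simp [h0, hdm, h2, h3]

theorem euler_factor [CharZero E] (d₀ d₁ : ℕ) (h₀ : 0 < d₀) (h₁ : 0 < d₁)
    (α β : E) (hαβ : α ^ d₁ ≠ β ^ d₀) (lam lam₀ lam₁ : ℕ → E)
    (hlam₀ : ∀ m ≥ 1, lam m = lam₀ m + if d₀ ∣ m then (d₀ : E) * α ^ (m / d₀) else 0)
    (hlam₁ : ∀ m ≥ 1, lam m = lam₁ m + if d₁ ∣ m then (d₁ : E) * β ^ (m / d₁) else 0)
    (y₀ y₁ : ℕ → E) (hy₀ : y₀ 0 = 1) (hy₁ : y₁ 0 = 1)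
    (hrec₀ : ∀ d : ℕ, (d : E) * y₀ d = ∑ m ∈ Finset.Icc 1 d, lam₀ m * y₀ (d - m))
    (hrec₁ : ∀ d : ℕ, (d : E) * y₁ d = ∑ m ∈ Finset.Icc 1 d, lam₁ m * y₁ (d - m))
    (hpol₀ : ∃ N, ∀ d ≥ N, y₀ d = 0) (hpol₁ : ∃ N, ∀ d ≥ N, y₁ d = 0)
    (y : ℕ → E) (hy : ∀ d, y d = ∑ j ∈ Finset.range (d + 1),
      if j * d₀ ≤ d then α ^ j * y₀ (d - j * d₀) else 0) :
    y 0 = 1 ∧ (∀ d : ℕ, (d : E) * y d = ∑ m ∈ Finset.Icc 1 d, lam m * y (d - m)) ∧
      ∃ N, ∀ d ≥ N, y d = 0 := by
  classical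
  -- general facts
  have hLDmk : ∀ (z l : ℕ → E), (∀ d : ℕ, (d : E) * z d =
      ∑ m ∈ Finset.Icc 1 d, l m * z (d - m)) →
      LD (PowerSeries.mk z) (PowerSeries.mk fun m => if m = 0 then 0 else l m) := by
    intro z l hz
    rw [LD_iff_rec (by simp)]
    intro d
    rw [PowerSeries.coeff_mk, hz d]
    refine Finset.sum_congr rfl fun m hm => ?_
    have hm0 : m ≠ 0 := by
      have := (Finset.mem_Icc.1 hm).1
      omega
    simp only [PowerSeries.coeff_mk, if_neg hm0]
  have hG0 : ∀ (d : ℕ) (γ : E), 0 < d →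
      PowerSeries.constantCoeff (1 - PowerSeries.C γ * (PowerSeries.X : PowerSeries E) ^ d) = 1 := by
    intro d γ hd
    have : d ≠ 0 := by omega
    simp [this]
  have hpoly : ∀ (z : ℕ → E), (∃ N, ∀ d ≥ N, z d = 0) →
      ∃ L : E[X], (L : PowerSeries E) = PowerSeries.mk z := by
    rintro z ⟨N, hN⟩
    refine ⟨PowerSeries.trunc N (PowerSeries.mk z), ?_⟩
    ext d
    rw [Polynomial.coeff_coe, PowerSeries.coeff_trunc, PowerSeries.coeff_mk]
    split_ifs with h
    · rfl
    · exact (hN d (not_lt.1 h)).symm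
  set G₀ : PowerSeries E := 1 - PowerSeries.C α * (PowerSeries.X : PowerSeries E) ^ d₀ with hG₀
  set G₁ : PowerSeries E := 1 - PowerSeries.C β * (PowerSeries.X : PowerSeries E) ^ d₁ with hG₁
  have hG₀0 : PowerSeries.constantCoeff G₀ = 1 := hG0 d₀ α h₀
  have hG₁0 : PowerSeries.constantCoeff G₁ = 1 := hG0 d₁ β h₁
  have hG₀n : PowerSeries.constantCoeff G₀ ≠ 0 := by rw [hG₀0]; exact one_ne_zero
  have hG₁n : PowerSeries.constantCoeff G₁ ≠ 0 := by rw [hG₁0]; exact one_ne_zero
  have hL₀ := (hLDmk y₀ lam₀ hrec₀).mul ((LD_euler d₀ h₀ α).inv hG₀n)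
  have hL₁ := (hLDmk y₁ lam₁ hrec₁).mul ((LD_euler d₁ h₁ β).inv hG₁n)
  set NL : PowerSeries E := PowerSeries.mk fun m => if m = 0 then 0 else lam m with hNL
  have hN₀ : (PowerSeries.mk fun m => if m = 0 then 0 else lam₀ m) +
      - -(PowerSeries.mk fun m => if m ≠ 0 ∧ d₀ ∣ m then (d₀ : E) * α ^ (m / d₀) else 0) = NL := by
    rw [neg_neg, hNL]
    ext m
    simp only [map_add, PowerSeries.coeff_mk]
    by_cases hm : m = 0
    · simp [hm]
    · rw [if_neg hm, if_neg hm, hlam₀ m (Nat.pos_of_ne_zero hm)]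
      simp [hm]
  have hN₁ : (PowerSeries.mk fun m => if m = 0 then 0 else lam₁ m) +
      - -(PowerSeries.mk fun m => if m ≠ 0 ∧ d₁ ∣ m then (d₁ : E) * β ^ (m / d₁) else 0) = NL := by
    rw [neg_neg, hNL]
    ext m
    simp only [map_add, PowerSeries.coeff_mk]
    by_cases hm : m = 0
    · simp [hm]
    · rw [if_neg hm, if_neg hm, hlam₁ m (Nat.pos_of_ne_zero hm)]
      simp [hm]
  rw [hN₀] at hL₀
  rw [hN₁] at hL₁
  have hc₀ : PowerSeries.constantCoeff (PowerSeries.mk y₀ * G₀⁻¹) = 1 := by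
    rw [map_mul, PowerSeries.constantCoeff_inv, hG₀0,
      ← PowerSeries.coeff_zero_eq_constantCoeff_apply, PowerSeries.coeff_mk, hy₀]
    simp
  have hc₁ : PowerSeries.constantCoeff (PowerSeries.mk y₁ * G₁⁻¹) = 1 := by
    rw [map_mul, PowerSeries.constantCoeff_inv, hG₁0,
      ← PowerSeries.coeff_zero_eq_constantCoeff_apply, PowerSeries.coeff_mk, hy₁]
    simp
  have heq : PowerSeries.mk y₀ * G₀⁻¹ = PowerSeries.mk y₁ * G₁⁻¹ :=
    hL₀.unique hL₁ (by rw [hc₁]; exact one_ne_zero) (by rw [hc₀, hc₁])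
  -- `y` is the series `y₀ / G₀`
  have hyG : PowerSeries.mk y * G₀ = PowerSeries.mk y₀ := by
    have hext : ∀ (d n : ℕ), d + 1 ≤ n → y d = ∑ j ∈ Finset.range n,
        if j * d₀ ≤ d then α ^ j * y₀ (d - j * d₀) else 0 := by
      intro d n hn
      rw [hy d]
      apply Finset.sum_subset
      · intro j hj
        rw [Finset.mem_range] at hj ⊢
        omega
      · intro j hj hj'
        rw [Finset.mem_range] at hj hj'
        rw [if_neg]
        intro h
        have : j ≤ j * d₀ := Nat.le_mul_of_pos_right _ h₀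
        omega
    rw [hG₀, mul_sub, mul_one, mul_comm (PowerSeries.mk y), mul_assoc]
    ext d
    rw [map_sub, PowerSeries.coeff_C_mul, PowerSeries.coeff_X_pow_mul', PowerSeries.coeff_mk,
      PowerSeries.coeff_mk]
    by_cases hd : d₀ ≤ d
    · rw [if_pos hd, PowerSeries.coeff_mk, hy d, Finset.sum_range_succ', hext (d - d₀) d (by omega),
        Finset.mul_sum]
      have h1 : ∀ j ∈ Finset.range d, (if (j + 1) * d₀ ≤ d then
          α ^ (j + 1) * y₀ (d - (j + 1) * d₀) else 0) =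
          α * (if j * d₀ ≤ d - d₀ then α ^ j * y₀ (d - d₀ - j * d₀) else 0) := by
        intro j _
        have h2 : (j + 1) * d₀ = j * d₀ + d₀ := by ring
        by_cases h3 : j * d₀ ≤ d - d₀
        · have h4 : (j + 1) * d₀ ≤ d := by omega
          have h5 : d - (j + 1) * d₀ = d - d₀ - j * d₀ := by omega
          rw [if_pos h3, if_pos h4, h5, pow_succ]
          ring
        · have h4 : ¬ (j + 1) * d₀ ≤ d := by omega
          rw [if_neg h3, if_neg h4, mul_zero]
      rw [Finset.sum_congr rfl h1]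
      simp
    · rw [if_neg hd, mul_zero, sub_zero, hy d, Finset.sum_range_succ']
      have h1 : ∀ j ∈ Finset.range d, (if (j + 1) * d₀ ≤ d then
          α ^ (j + 1) * y₀ (d - (j + 1) * d₀) else 0) = 0 := by
        intro j _
        have h2 : (j + 1) * d₀ = j * d₀ + d₀ := by ring
        rw [if_neg (by omega)]
      rw [Finset.sum_eq_zero h1]
      simp
  have hyeq : PowerSeries.mk y = PowerSeries.mk y₀ * G₀⁻¹ := by
    rw [← hyG, mul_assoc, PowerSeries.mul_inv_cancel G₀ hG₀n, mul_one]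
  have hLy : LD (PowerSeries.mk y) NL := by rw [hyeq]; exact hL₀
  refine ⟨?_, ?_, ?_⟩
  · rw [hy 0]
    simp [hy₀]
  · intro d
    rw [LD_iff_rec (by simp [hNL])] at hLy
    have h1 := hLy d
    rw [PowerSeries.coeff_mk] at h1
    rw [h1]
    refine Finset.sum_congr rfl fun m hm => ?_
    have hm0 : m ≠ 0 := by
      have := (Finset.mem_Icc.1 hm).1
      omega
    rw [hNL, PowerSeries.coeff_mk, PowerSeries.coeff_mk, if_neg hm0]
  · obtain ⟨L₀, hL₀'⟩ := hpoly y₀ hpol₀
    obtain ⟨L₁, hL₁'⟩ := hpoly y₁ hpol₁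
    let g₀ : E[X] := 1 - C α * X ^ d₀
    let g₁ : E[X] := 1 - C β * X ^ d₁
    have hg₀ : (g₀ : PowerSeries E) = G₀ := by
      simp only [g₀, hG₀]
      rw [Polynomial.coe_sub, Polynomial.coe_mul, Polynomial.coe_pow, Polynomial.coe_one,
        Polynomial.coe_X, Polynomial.coe_C]
    have hg₁ : (g₁ : PowerSeries E) = G₁ := by
      simp only [g₁, hG₁]
      rw [Polynomial.coe_sub, Polynomial.coe_mul, Polynomial.coe_pow, Polynomial.coe_one,
        Polynomial.coe_X, Polynomial.coe_C]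
    have hprod : L₀ * g₁ = L₁ * g₀ := by
      apply Polynomial.coe_injective
      rw [Polynomial.coe_mul, Polynomial.coe_mul, hL₀', hL₁', hg₀, hg₁]
      calc PowerSeries.mk y₀ * G₁ = (PowerSeries.mk y₀ * G₀⁻¹) * G₁ * (G₀ * G₀⁻¹) * G₀ *
            (G₀⁻¹ * G₀)⁻¹ := by
            rw [PowerSeries.inv_mul_cancel G₀ hG₀n, PowerSeries.mul_inv_cancel G₀ hG₀n]
            have : (1 : PowerSeries E)⁻¹ = 1 := by simp
            rw [this, mul_one, mul_one]
            calc PowerSeries.mk y₀ * G₁ = PowerSeries.mk y₀ * (G₀⁻¹ * G₀) * G₁ := by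
                  rw [PowerSeries.inv_mul_cancel G₀ hG₀n, mul_one]
              _ = _ := by ring
        _ = PowerSeries.mk y₁ * (G₁⁻¹ * G₁) * G₀ := by
            rw [PowerSeries.inv_mul_cancel G₀ hG₀n, PowerSeries.mul_inv_cancel G₀ hG₀n, heq]
            have : (1 : PowerSeries E)⁻¹ = 1 := by simp
            rw [this]
            ring
        _ = _ := by rw [PowerSeries.inv_mul_cancel G₁ hG₁n, mul_one]
    have hcop : IsCoprime g₀ g₁ := by
      have hne : β ^ d₀ - α ^ d₁ ≠ 0 := sub_ne_zero.2 hαβ.symm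
      have hA : g₀ ∣ 1 - C (α ^ d₁) * X ^ (d₀ * d₁) := by
        have h1 : (1 - C (α ^ d₁) * X ^ (d₀ * d₁) : E[X]) = 1 ^ d₁ - (C α * X ^ d₀) ^ d₁ := by
          rw [one_pow, mul_pow, ← pow_mul, C_pow]
        rw [h1]
        exact sub_dvd_pow_sub_pow _ _ _
      have hB : g₁ ∣ 1 - C (β ^ d₀) * X ^ (d₀ * d₁) := by
        have h1 : (1 - C (β ^ d₀) * X ^ (d₀ * d₁) : E[X]) = 1 ^ d₀ - (C β * X ^ d₁) ^ d₀ := by
          rw [one_pow, mul_pow, ← pow_mul, C_pow, mul_comm d₁ d₀]
        rw [h1]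
        exact sub_dvd_pow_sub_pow _ _ _
      obtain ⟨A, hA⟩ := hA
      obtain ⟨B, hB⟩ := hB
      refine ⟨C ((β ^ d₀ - α ^ d₁)⁻¹) * C (β ^ d₀) * A,
        - (C ((β ^ d₀ - α ^ d₁)⁻¹) * C (α ^ d₁) * B), ?_⟩
      have h2 : (C ((β ^ d₀ - α ^ d₁)⁻¹) : E[X]) * (C (β ^ d₀) - C (α ^ d₁)) = 1 := by
        rw [← C_sub, ← C_mul, inv_mul_cancel₀ hne, C_1]
      calc C ((β ^ d₀ - α ^ d₁)⁻¹) * C (β ^ d₀) * A * g₀ +
            -(C ((β ^ d₀ - α ^ d₁)⁻¹) * C (α ^ d₁) * B) * g₁
          = C ((β ^ d₀ - α ^ d₁)⁻¹) * (C (β ^ d₀) * (g₀ * A) - C (α ^ d₁) * (g₁ * B)) := by ring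
        _ = C ((β ^ d₀ - α ^ d₁)⁻¹) * (C (β ^ d₀) - C (α ^ d₁)) := by
            rw [← hA, ← hB]; ring
        _ = 1 := h2
    have hdvd : g₀ ∣ L₀ := by
      apply hcop.dvd_of_dvd_mul_right
      rw [hprod]
      exact dvd_mul_left _ _
    obtain ⟨R, hR⟩ := hdvd
    refine ⟨R.natDegree + 1, fun d hd => ?_⟩
    have h3 : PowerSeries.mk y = (R : PowerSeries E) := by
      have h4 : G₀ * PowerSeries.mk y = G₀ * (R : PowerSeries E) := by
        rw [mul_comm, hyG, ← hL₀', hR, Polynomial.coe_mul, hg₀]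
      have h5 : G₀ ≠ 0 := by
        intro h
        rw [h, map_zero] at hG₀0
        exact zero_ne_one hG₀0
      exact mul_left_cancel₀ h5 h4
    have h4 := congrArg (PowerSeries.coeff d) h3
    rw [PowerSeries.coeff_mk, Polynomial.coeff_coe,
      Polynomial.coeff_eq_zero_of_natDegree_lt (by omega)] at h4
    exact h4

end E3

end Pool.Agent.Helper92
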