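import Pool.Agent.Helper92.TaskE

set_option autoImplicit false

namespace Pool.Agent.Helper92

open Polynomial

section General

variable {F : Type*} [Field F]

/-- Generalisation of `LD_P` to an arbitrary right hand side. -/
lemma LD_P' {c : ℕ → ℕ} {P W : ℤ[X]} {NW : PowerSeries F} (hW : LD (ps W) NW)
    (hP : ∀ N : ℕ, (X : ℤ[X]) ^ (N + 1) ∣
      P * ∏ d ∈ Finset.Icc 1 N, (1 - (X : ℤ[X]) ^ d) ^ c d - W) :
    LD (ps P : PowerSeries F) (H c + NW) := by
  unfold LD
  ext m
  suffices h : (PowerSeries.X : PowerSeries F) ^ (m + 1) ∣ th (ps P) - (H c + NW) * ps P by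
    rw [PowerSeries.X_pow_dvd_iff] at h
    have := h m (Nat.lt_succ_self m)
    rw [map_sub] at this
    exact sub_eq_zero.1 this
  obtain ⟨R, hR⟩ := hP m
  have h1 : ps P * ∏ d ∈ Finset.Icc 1 m, (1 - (PowerSeries.X : PowerSeries F) ^ d) ^ c d -
      ps W = PowerSeries.X ^ (m + 1) * ps R := by
    rw [← ps_G, ← ps_mul, ← ps_sub, hR, ps_mul, ps_pow, ps_X]
  set G : PowerSeries F := ∏ d ∈ Finset.Icc 1 m, (1 - (PowerSeries.X : PowerSeries F) ^ d) ^ c d
    with hG
  have hLG : th G = (∑ d ∈ Finset.Icc 1 m, (c d : PowerSeries F) * (-T d)) * G := LD_G c m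
  have hLW : th (ps W) = NW * ps W := hW
  obtain ⟨S, hS⟩ := dvd_H_add (F := F) c m
  have hG0 : PowerSeries.constantCoeff G = 1 := constantCoeff_G c m
  have hGinv : G * G⁻¹ = 1 := PowerSeries.mul_inv_cancel G (by rw [hG0]; exact one_ne_zero)
  have h2 : th (PowerSeries.X ^ (m + 1) * ps R : PowerSeries F) = PowerSeries.X ^ (m + 1) *
      (((m + 1 : ℕ) : PowerSeries F) * ps R + th (ps R)) := by
    ext k
    rw [coeff_th, PowerSeries.coeff_X_pow_mul', PowerSeries.coeff_X_pow_mul']
    split_ifs with hk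
    · have h1 : ∀ (n : ℕ) (f : PowerSeries F) (j : ℕ),
          PowerSeries.coeff j ((n : PowerSeries F) * f) = n * PowerSeries.coeff j f := by
        intro n f j
        rw [← nsmul_eq_mul, map_nsmul, nsmul_eq_mul]
      rw [map_add, h1, coeff_th, Nat.cast_sub hk]
      ring
    · simp
  have h3 : th (ps P) * G + ps P * th G - th (ps W) = PowerSeries.X ^ (m + 1) *
      (((m + 1 : ℕ) : PowerSeries F) * ps R + th (ps R)) := by
    rw [← h2, ← h1, map_sub, Derivation.leibniz (D := th) (a := ps P) (b := G), smul_eq_mul,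
      smul_eq_mul, mul_comm G]
    exact congrArg (fun f => f - th (ps W)) (add_comm _ _)
  rw [hLG, hLW] at h3
  have h4 : (∑ d ∈ Finset.Icc 1 m, (c d : PowerSeries F) * (-T d)) =
      PowerSeries.X ^ (m + 1) * S - H c := by
    rw [← hS]; ring
  rw [h4] at h3
  refine ⟨G⁻¹ * ((((m + 1 : ℕ) : PowerSeries F) * ps R + th (ps R)) - ps P * S * G
    - NW * ps R), ?_⟩
  have h5 : ps W = ps P * G - PowerSeries.X ^ (m + 1) * ps R := by
    rw [← h1]; ring
  rw [h5] at h3
  calc th (ps P) - (H c + NW) * ps P = (G * G⁻¹) * (th (ps P) - (H c + NW) * ps P) := by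
        rw [hGinv, one_mul]
    _ = G⁻¹ * (th (ps P) * G + ps P * ((PowerSeries.X ^ (m + 1) * S - H c) * G) -
        NW * (ps P * G - PowerSeries.X ^ (m + 1) * ps R)) + PowerSeries.X ^ (m + 1) *
        (G⁻¹ * (- NW * ps R - ps P * S * G)) := by ring
    _ = _ := by rw [h3]; ring

lemma constantCoeff_P' {c : ℕ → ℕ} {P W : ℤ[X]} (hW : W.coeff 0 = 1)
    (hP : ∀ N : ℕ, (X : ℤ[X]) ^ (N + 1) ∣
      P * ∏ d ∈ Finset.Icc 1 N, (1 - (X : ℤ[X]) ^ d) ^ c d - W) :
    P.coeff 0 = 1 := by
  obtain ⟨R, hR⟩ := hP 0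
  have h1 := congrArg (fun f : ℤ[X] => f.coeff 0) hR
  simp [Polynomial.mul_coeff_zero, hW] at h1
  omega

/-- `(1 - X^g)(1 - q^g X^g)`. -/
noncomputable def FF (q g : ℕ) : ℤ[X] := (1 - X ^ g) * (1 - C ((q : ℤ) ^ g) * X ^ g)

/-- Its logarithmic derivative. -/
noncomputable def NF (q g : ℕ) : PowerSeries F :=
  -T g + (-PowerSeries.mk fun m => if m ≠ 0 ∧ g ∣ m then (g : F) * ((q : F) ^ g) ^ (m / g) else 0)

lemma ps_FF (q g : ℕ) : (ps (FF q g) : PowerSeries F) =
    (1 - PowerSeries.X ^ g) * (1 - PowerSeries.C ((q : F) ^ g) * PowerSeries.X ^ g) := by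
  unfold FF
  rw [ps_mul, ps_sub, ps_sub, ps_mul, ps_one, ps_pow, ps_X, ps_C]
  push_cast
  rfl

lemma LD_FF (q : ℕ) {g : ℕ} (hg : 0 < g) : LD (ps (FF q g) : PowerSeries F) (NF q g) := by
  rw [ps_FF]
  exact (LD_one_sub_X_pow hg).mul (LD_euler g hg ((q : F) ^ g))

lemma FF_coeff_zero (q : ℕ) {g : ℕ} (hg : 0 < g) : (FF q g).coeff 0 = 1 := by
  unfold FF
  have : g ≠ 0 := hg.ne'
  simp [Polynomial.mul_coeff_zero, Polynomial.coeff_X_pow, this.symm]

end General

section Z5

lemma coeff_natCast_mul {F : Type*} [Field F] (n : ℕ) (f : PowerSeries F) (j : ℕ) :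
    PowerSeries.coeff j ((n : PowerSeries F) * f) = n * PowerSeries.coeff j f := by
  rw [← nsmul_eq_mul, map_nsmul, nsmul_eq_mul]

lemma LD.expand {F : Type*} [Field F] {f N : PowerSeries F} (hf : LD f N) (g : ℕ) (hg : g ≠ 0) :
    LD (PowerSeries.expand g hg f) ((g : PowerSeries F) * PowerSeries.expand g hg N) := by
  unfold LD at *
  have h1 : th (PowerSeries.expand g hg f) =
      (g : PowerSeries F) * PowerSeries.expand g hg (th f) := by
    ext m
    rw [coeff_th, PowerSeries.coeff_expand, coeff_natCast_mul, PowerSeries.coeff_expand]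
    split_ifs with h
    · obtain ⟨k, rfl⟩ := h
      rw [Nat.mul_div_cancel_left _ (Nat.pos_of_ne_zero hg), coeff_th]
      push_cast
      ring
    · simp
  rw [h1, hf, map_mul]
  ring

lemma ps_expand {F : Type*} [Field F] (P : ℤ[X]) (g : ℕ) (hg : g ≠ 0) :
    (ps (Polynomial.expand ℤ g P) : PowerSeries F) = PowerSeries.expand g hg (ps P) := by
  ext m
  unfold ps
  rw [PowerSeries.coeff_expand, Polynomial.coeff_coe, Polynomial.coeff_coe, Polynomial.coeff_map,
    Polynomial.coeff_map, Polynomial.coeff_expand (Nat.pos_of_ne_zero hg)]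
  split_ifs <;> simp

theorem gcd_eq_one (q g g' : ℕ) (hq : 2 ≤ q) (hg : 0 < g) (hg' : 0 < g') (c c' : ℕ → ℕ)
    (hc : ∀ d, ¬ g ∣ d → c d = 0) (hc' : ∀ e, c' e = g * c (g * e)) (T T' : ℤ[X])
    (hT : ∀ N : ℕ, (X : ℤ[X]) ^ (N + 1) ∣ T * ∏ d ∈ Finset.Icc 1 N, (1 - (X : ℤ[X]) ^ d) ^ c d
          - (1 - X ^ g) * (1 - C ((q : ℤ) ^ g) * X ^ g))
    (hT0 : (T.map (Int.castRingHom ℚ)).eval (1 / (q : ℚ)) ≠ 0)
    (hT' : ∀ N : ℕ, (X : ℤ[X]) ^ (N + 1) ∣ T' * ∏ d ∈ Finset.Icc 1 N, (1 - (X : ℤ[X]) ^ d) ^ c' d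
          - (1 - X ^ g') * (1 - C (((q ^ g : ℕ) : ℤ) ^ g') * X ^ g')) : g = 1 := by
  classical
  have hT2 : ∀ N : ℕ, (X : ℤ[X]) ^ (N + 1) ∣
      T * ∏ d ∈ Finset.Icc 1 N, (1 - (X : ℤ[X]) ^ d) ^ c d - FF q g := hT
  have hT2' : ∀ N : ℕ, (X : ℤ[X]) ^ (N + 1) ∣
      T' * ∏ d ∈ Finset.Icc 1 N, (1 - (X : ℤ[X]) ^ d) ^ c' d - FF (q ^ g) g' := hT'
  have hL : LD (ps T : PowerSeries ℚ) (H c + NF q g) := LD_P' (LD_FF q hg) hT2
  have hL' : LD (ps T' : PowerSeries ℚ) (H c' + NF (q ^ g) g') := LD_P' (LD_FF _ hg') hT2'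
  have hgne : g ≠ 0 := hg.ne'
  -- the identity
  have hid : T ^ g * Polynomial.expand ℤ g (FF (q ^ g) g') =
      Polynomial.expand ℤ g T' * FF q g ^ g := by
    have hinj : Function.Injective (fun P : ℤ[X] => (ps P : PowerSeries ℚ)) := by
      intro P Q h
      have h1 := Polynomial.coe_injective ℚ h
      exact Polynomial.map_injective _ (RingHom.injective_int _) h1
    apply hinj
    simp only
    rw [ps_mul, ps_mul, ps_pow, ps_pow, ps_expand _ g hgne, ps_expand _ g hgne]
    have h1 := (hL.pow g).mul ((LD_FF (F := ℚ) (q ^ g) hg').expand g hgne)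
    have h2 := (hL'.expand g hgne).mul ((LD_FF (F := ℚ) q hg).pow g)
    have hHH : (g : PowerSeries ℚ) * PowerSeries.expand g hgne (H c') =
        (g : PowerSeries ℚ) * H c := by
      congr 1
      ext m
      rw [PowerSeries.coeff_expand]
      split_ifs with h
      · obtain ⟨k, rfl⟩ := h
        rw [Nat.mul_div_cancel_left _ hg]
        by_cases hk : k = 0
        · subst hk
          simp [H]
        simp only [H, PowerSeries.coeff_mk]
        symm
        rw [← Finset.sum_subset (s₁ := k.divisors.image (fun d => g * d))]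
        · rw [Finset.sum_image (fun x _ y _ h => Nat.eq_of_mul_eq_mul_left hg h)]
          refine Finset.sum_congr rfl fun d _ => ?_
          rw [hc']
          push_cast
          ring
        · intro d hd
          obtain ⟨e, he, rfl⟩ := Finset.mem_image.1 hd
          rw [Nat.mem_divisors] at he ⊢
          exact ⟨Nat.mul_dvd_mul_left g he.1, Nat.mul_ne_zero hgne he.2⟩
        · intro d hd hd'
          by_cases hgd : g ∣ d
          · exfalso
            obtain ⟨e, rfl⟩ := hgd
            apply hd'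
            rw [Finset.mem_image]
            refine ⟨e, ?_, rfl⟩
            rw [Nat.mem_divisors] at hd ⊢
            exact ⟨Nat.dvd_of_mul_dvd_mul_left hg hd.1, hk⟩
          · rw [hc d hgd]
            simp
      · symm
        simp only [H, PowerSeries.coeff_mk]
        apply Finset.sum_eq_zero
        intro d hd
        rw [hc d, Nat.cast_zero, mul_zero]
        intro hgd
        exact h (hgd.trans (Nat.mem_divisors.1 hd).1)
    have hNN : (g : PowerSeries ℚ) * (H c + NF q g) +
        (g : PowerSeries ℚ) * PowerSeries.expand g hgne (NF (q ^ g) g') =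
        (g : PowerSeries ℚ) * PowerSeries.expand g hgne (H c' + NF (q ^ g) g') +
        (g : PowerSeries ℚ) * NF q g := by
      rw [map_add]
      linear_combination -hHH
    rw [hNN] at h1
    have hc1 : PowerSeries.constantCoeff (ps T ^ g * PowerSeries.expand g hgne
        (ps (FF (q ^ g) g')) : PowerSeries ℚ) = 1 := by
      rw [map_mul, map_pow, PowerSeries.constantCoeff_expand, constantCoeff_ps, constantCoeff_ps,
        constantCoeff_P' (FF_coeff_zero q hg) hT2, FF_coeff_zero _ hg']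
      simp
    have hc2 : PowerSeries.constantCoeff (PowerSeries.expand g hgne (ps T') * ps (FF q g) ^ g :
        PowerSeries ℚ) = 1 := by
      rw [map_mul, map_pow, PowerSeries.constantCoeff_expand, constantCoeff_ps, constantCoeff_ps,
        constantCoeff_P' (FF_coeff_zero _ hg') hT2', FF_coeff_zero _ hg]
      simp
    exact h1.unique h2 (by rw [hc2]; exact one_ne_zero) (by rw [hc1, hc2])
  -- orders of vanishing at `1 / q`
  have hq0 : (q : ℚ) ≠ 0 := by
    have : q ≠ 0 := by omega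
    exact_mod_cast this
  set x : ℚ := 1 / (q : ℚ) with hx
  have hqx : (q : ℚ) * x = 1 := by rw [hx]; field_simp
  by_contra hg1
  have hg2 : 2 ≤ g := by omega
  -- `(X - x)^2` divides the right-hand side
  have hid' := congrArg (Polynomial.map (Int.castRingHom ℚ)) hid
  rw [Polynomial.map_mul, Polynomial.map_mul, Polynomial.map_pow, Polynomial.map_pow] at hid'
  have hroot : (X - C x) ∣ (FF q g).map (Int.castRingHom ℚ) := by
    rw [Polynomial.dvd_iff_isRoot, Polynomial.IsRoot, FF]
    simp only [Polynomial.map_mul, Polynomial.map_sub, Polynomial.map_one, Polynomial.map_pow,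
      Polynomial.map_X, Polynomial.map_C, Polynomial.eval_mul, Polynomial.eval_sub,
      Polynomial.eval_one, Polynomial.eval_pow, Polynomial.eval_X, Polynomial.eval_C]
    have : (Int.castRingHom ℚ) ((q : ℤ) ^ g) * x ^ g = 1 := by
      simp only [map_pow, map_natCast]
      rw [← mul_pow, hqx, one_pow]
    rw [this, sub_self, mul_zero]
  have hsq : (X - C x) ^ 2 ∣ (T.map (Int.castRingHom ℚ)) ^ g *
      (Polynomial.expand ℤ g (FF (q ^ g) g')).map (Int.castRingHom ℚ) := by
    rw [hid']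
    exact ((pow_dvd_pow _ hg2).trans (pow_dvd_pow_of_dvd hroot g)).mul_left _
  have hcop : IsCoprime ((X - C x) ^ 2) ((T.map (Int.castRingHom ℚ)) ^ g) := by
    apply IsCoprime.pow
    have hprime : Irreducible (X - C x) := Polynomial.irreducible_X_sub_C x
    rw [hprime.coprime_iff_not_dvd, Polynomial.dvd_iff_isRoot]
    exact hT0
  have h3 := hcop.dvd_of_dvd_mul_left hsq
  -- but the derivative at `x` does not vanish
  have h4 : Polynomial.eval x (Polynomial.derivative
      ((Polynomial.expand ℤ g (FF (q ^ g) g')).map (Int.castRingHom ℚ))) = 0 := by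
    obtain ⟨R, hR⟩ := h3
    rw [hR]
    simp [Polynomial.derivative_mul, Polynomial.derivative_pow, pow_two]
  have h5 : (Polynomial.expand ℤ g (FF (q ^ g) g')).map (Int.castRingHom ℚ) =
      (1 - X ^ (g * g')) * (1 - C ((q : ℚ) ^ (g * g')) * X ^ (g * g')) := by
    unfold FF
    simp only [map_mul, map_sub, map_one, map_pow, Polynomial.expand_X, Polynomial.expand_C,
      Polynomial.map_mul, Polynomial.map_sub, Polynomial.map_one, Polynomial.map_pow,
      Polynomial.map_X, Polynomial.map_C]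
    rw [← pow_mul]
    congr 3
    simp [pow_mul]
  rw [h5] at h4
  set n := g * g' with hn
  have hn0 : n ≠ 0 := Nat.mul_ne_zero hgne hg'.ne'
  have hxn : (q : ℚ) ^ n * x ^ n = 1 := by rw [← mul_pow, hqx, one_pow]
  simp only [Polynomial.derivative_mul, Polynomial.derivative_sub, Polynomial.derivative_one,
    Polynomial.derivative_X_pow, Polynomial.derivative_C, Polynomial.eval_add,
    Polynomial.eval_mul, Polynomial.eval_sub, Polynomial.eval_one, Polynomial.eval_pow,
    Polynomial.eval_X, Polynomial.eval_C, Polynomial.eval_zero, zero_mul, zero_add, zero_sub,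
    Polynomial.eval_neg, Polynomial.eval_natCast, hxn, sub_self, mul_zero] at h4
  have hx0 : 0 < x := by
    have : (0 : ℚ) < q := by
      have : 0 < q := by omega
      exact_mod_cast this
    rw [hx]; positivity
  have hx1 : x < 1 := by
    have : (1 : ℚ) < q := by
      have : 1 < q := by omega
      exact_mod_cast this
    rw [hx, div_lt_one (by linarith)]
    exact this
  have h6 : x ^ n < 1 := pow_lt_one₀ hx0.le hx1 hn0
  have h7 : (0 : ℚ) < (1 - x ^ n) * ((q : ℚ) ^ n * ((n : ℚ) * x ^ (n - 1))) := by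
    have hn1 : (0 : ℚ) < n := by
      have : 0 < n := Nat.pos_of_ne_zero hn0
      exact_mod_cast this
    have hqp : (0 : ℚ) < q := by
      have : 0 < q := by omega
      exact_mod_cast this
    have : 0 < 1 - x ^ n := by linarith
    positivity
  linarith

end Z5

section Z3

/-- `1 - X^n`. -/
noncomputable def al (n : ℕ) : ℚ[X] := 1 - X ^ n

/-- `1 - q^n X^n`. -/
noncomputable def be (q n : ℕ) : ℚ[X] := 1 - C ((q : ℚ) ^ n) * X ^ n

lemma be_eq_comp (q n : ℕ) : be q n = (al n).comp (C (q : ℚ) * X) := by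
  unfold be al
  simp only [Polynomial.sub_comp, Polynomial.one_comp, Polynomial.X_pow_comp, mul_pow, C_pow]

lemma al_dvd {a b : ℕ} (h : a ∣ b) : al a ∣ al b := by
  obtain ⟨k, rfl⟩ := h
  unfold al
  have : (1 - X ^ (a * k) : ℚ[X]) = 1 ^ k - (X ^ a) ^ k := by rw [one_pow, ← pow_mul]
  rw [this]
  exact sub_dvd_pow_sub_pow _ _ _

lemma be_dvd (q : ℕ) {a b : ℕ} (h : a ∣ b) : be q a ∣ be q b := by
  rw [be_eq_comp, be_eq_comp]
  obtain ⟨R, hR⟩ := al_dvd h
  rw [hR, Polynomial.mul_comp]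
  exact Dvd.intro _ rfl

lemma exists_bezout_nat {a b : ℕ} (ha : 0 < a) (hb : 0 < b) :
    ∃ x y : ℕ, a * x = b * y + Nat.gcd a b := by
  have h := Nat.gcd_eq_gcd_ab a b
  set s := Nat.gcdA a b
  set t := Nat.gcdB a b
  set k : ℤ := |s| + |t| with hk
  have h1 : 0 ≤ s + k * b := by
    have hb' : (1 : ℤ) ≤ b := by exact_mod_cast hb
    have := neg_abs_le s
    have h2 := abs_nonneg s
    have h3 := abs_nonneg t
    nlinarith
  have h2 : 0 ≤ -t + k * a := by
    have ha' : (1 : ℤ) ≤ a := by exact_mod_cast ha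
    have := le_abs_self t
    have h2 := abs_nonneg s
    have h3 := abs_nonneg t
    nlinarith
  refine ⟨(s + k * b).toNat, (-t + k * a).toNat, ?_⟩
  zify
  rw [Int.toNat_of_nonneg h1, Int.toNat_of_nonneg h2, h]
  ring

lemma al_gcd {a b : ℕ} (ha : 0 < a) (hb : 0 < b) :
    ∃ U V : ℚ[X], al (Nat.gcd a b) = U * al a + V * al b := by
  obtain ⟨x, y, hxy⟩ := exists_bezout_nat ha hb
  obtain ⟨U, hU⟩ := al_dvd (Dvd.intro x rfl : a ∣ a * x)
  obtain ⟨V, hV⟩ := al_dvd (Dvd.intro y rfl : b ∣ b * y)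
  refine ⟨U, -(X ^ (Nat.gcd a b) * V), ?_⟩
  have h1 : al (Nat.gcd a b) = al (a * x) - X ^ (Nat.gcd a b) * al (b * y) := by
    unfold al
    rw [hxy, pow_add]
    ring
  rw [h1, hU, hV]
  ring

lemma be_gcd (q : ℕ) {a b : ℕ} (ha : 0 < a) (hb : 0 < b) :
    ∃ U V : ℚ[X], be q (Nat.gcd a b) = U * be q a + V * be q b := by
  obtain ⟨U, V, h⟩ := al_gcd ha hb
  refine ⟨U.comp (C (q : ℚ) * X), V.comp (C (q : ℚ) * X), ?_⟩
  rw [be_eq_comp, be_eq_comp, be_eq_comp, h]
  simp only [Polynomial.add_comp, Polynomial.mul_comp]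

lemma al_be_coprime {q : ℕ} (hq : 2 ≤ q) {a b : ℕ} (ha : 0 < a) (hb : 0 < b) :
    IsCoprime (al a) (be q b) := by
  have h1 : IsCoprime (al (a * b)) (be q (a * b)) := by
    have hne : (q : ℚ) ^ (a * b) - 1 ≠ 0 := by
      have : (1 : ℚ) < (q : ℚ) ^ (a * b) := by
        apply one_lt_pow₀
        · have : 1 < q := by omega
          exact_mod_cast this
        · exact Nat.mul_ne_zero ha.ne' hb.ne'
      linarith
    refine ⟨C (((q : ℚ) ^ (a * b) - 1)⁻¹) * C ((q : ℚ) ^ (a * b)),
      - C (((q : ℚ) ^ (a * b) - 1)⁻¹), ?_⟩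
    unfold al be
    have h2 : (C (((q : ℚ) ^ (a * b) - 1)⁻¹) : ℚ[X]) * (C ((q : ℚ) ^ (a * b)) - 1) = 1 := by
      rw [← C_1, ← C_sub, ← C_mul, inv_mul_cancel₀ hne]
    linear_combination h2
  exact (h1.of_isCoprime_of_dvd_left (al_dvd (Dvd.intro b rfl))).of_isCoprime_of_dvd_right
    (be_dvd q (Dvd.intro_left a rfl))

lemma gcd_closed {q : ℕ} (hq : 2 ≤ q) (J : Ideal ℚ[X]) {a b a' b' : ℕ} (ha : 0 < a) (hb : 0 < b)
    (ha' : 0 < a') (hb' : 0 < b') (h : al a * be q b ∈ J) (h' : al a' * be q b' ∈ J) :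
    al (Nat.gcd a a') * be q (Nat.gcd b b') ∈ J := by
  obtain ⟨U, V, hUV⟩ := al_gcd ha ha'
  obtain ⟨U', V', hUV'⟩ := be_gcd q hb hb'
  obtain ⟨A, hA⟩ := al_dvd (Nat.gcd_dvd_left a a')
  obtain ⟨B, hB⟩ := be_dvd q (Nat.gcd_dvd_left b b')
  set D := al (Nat.gcd a a')
  set E := be q (Nat.gcd b b')
  have hx : D * E * (B * be q b') ∈ J := by
    have : D * E * (B * be q b') = U * be q b' * (al a * be q b) +
        V * be q b * (al a' * be q b') := by
      calc D * E * (B * be q b') = D * (E * B) * be q b' := by ring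
        _ = (U * al a + V * al a') * be q b * be q b' := by rw [← hB, hUV]
        _ = _ := by ring
    rw [this]
    exact J.add_mem (J.mul_mem_left _ h) (J.mul_mem_left _ h')
  have hy : D * E * (A * al a') ∈ J := by
    have : D * E * (A * al a') = U' * al a' * (al a * be q b) +
        V' * al a * (al a' * be q b') := by
      calc D * E * (A * al a') = (D * A) * E * al a' := by ring
        _ = al a * (U' * be q b + V' * be q b') * al a' := by rw [← hA, hUV']
        _ = _ := by ring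
    rw [this]
    exact J.add_mem (J.mul_mem_left _ h) (J.mul_mem_left _ h')
  have hcop : IsCoprime (A * al a') (B * be q b') := by
    have h1 : IsCoprime (al a * al a') (be q b * be q b') :=
      IsCoprime.mul_left (IsCoprime.mul_right (al_be_coprime hq ha hb) (al_be_coprime hq ha hb'))
        (IsCoprime.mul_right (al_be_coprime hq ha' hb) (al_be_coprime hq ha' hb'))
    refine (h1.of_isCoprime_of_dvd_left ?_).of_isCoprime_of_dvd_right ?_
    · rw [hA]; exact mul_dvd_mul_right (Dvd.intro_left _ rfl) _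
    · rw [hB]; exact mul_dvd_mul_right (Dvd.intro_left _ rfl) _
  obtain ⟨s, t, hst⟩ := hcop
  have : D * E = s * (D * E * (A * al a')) + t * (D * E * (B * be q b')) := by
    linear_combination -(D * E) * hst
  rw [this]
  exact J.add_mem (J.mul_mem_left _ hy) (J.mul_mem_left _ hx)

/-- The sum of the degrees in terms of the numbers of points. -/
lemma finsum_deg {V : Type*} {deg : V → ℕ} (hfin : ∀ d, {v | deg v = d}.Finite) (v : V) {m : ℕ}
    (hm : m ≠ 0) :
    ∑ᶠ w ∈ {w : V | w ≠ v ∧ deg w ∣ m}, deg w =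
      ∑ d ∈ m.divisors, d * {w : V | w ≠ v ∧ deg w = d}.ncard := by
  classical
  have hf : {w : V | w ≠ v ∧ deg w ∣ m}.Finite := (finite_dvd hfin hm).subset fun w hw => hw.2
  rw [finsum_mem_eq_finite_toFinset_sum _ hf]
  have hmap : ∀ w ∈ hf.toFinset, deg w ∈ m.divisors := by
    intro w hw
    rw [Set.Finite.mem_toFinset] at hw
    exact Nat.mem_divisors.2 ⟨hw.2, hm⟩
  rw [← Finset.sum_fiberwise_of_maps_to hmap]
  refine Finset.sum_congr rfl fun d hd => ?_
  have h1 : ∑ w ∈ hf.toFinset.filter (fun w => deg w = d), deg w =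
      ∑ w ∈ hf.toFinset.filter (fun w => deg w = d), d :=
    Finset.sum_congr rfl fun w hw => (Finset.mem_filter.1 hw).2
  rw [h1, Finset.sum_const, smul_eq_mul, mul_comm]
  congr 1
  rw [← Set.ncard_coe_finset]
  congr 1
  ext w
  simp only [Finset.coe_filter, Set.Finite.mem_toFinset, Set.mem_ofPred_eq]
  constructor
  · rintro ⟨⟨h2, h3⟩, h4⟩
    exact ⟨h2, h4⟩
  · rintro ⟨h2, h4⟩
    refine ⟨⟨h2, ?_⟩, h4⟩
    rw [h4]
    exact (Nat.mem_divisors.1 hd).1

theorem exists_numerator {V : Type*} (q : ℕ) (hq : 2 ≤ q) (deg : V → ℕ) (hdeg : ∀ v, 0 < deg v)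
    (hfin : ∀ d, {v | deg v = d}.Finite) (hV : ∃ v w : V, v ≠ w) (a : V → ℕ → ℕ)
    (ha0 : ∀ v, a v 0 = 1)
    (hrec : ∀ v d, d * a v d = ∑ m ∈ Finset.Icc 1 d,
      (∑ᶠ w ∈ {w : V | w ≠ v ∧ deg w ∣ m}, deg w) * a v (d - m))
    (hper : ∀ v w, w ≠ v → ∃ D, ∀ d ≥ D, a v (d + deg w) = q ^ deg w * a v d)
    (g : ℕ) (hg : ∀ v, g ∣ deg v) (hg' : ∀ g', (∀ v, g' ∣ deg v) → g' ∣ g) :
    ∃ T : ℤ[X], (∀ N : ℕ, (X : ℤ[X]) ^ (N + 1) ∣
        T * ∏ d ∈ Finset.Icc 1 N, (1 - (X : ℤ[X]) ^ d) ^ {v | deg v = d}.ncard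
          - (1 - X ^ g) * (1 - C ((q : ℤ) ^ g) * X ^ g)) ∧
      (T.map (Int.castRingHom ℚ)).eval (1 / (q : ℚ)) ≠ 0 := by
  classical
  obtain ⟨v₀, w₀, hvw₀⟩ := hV
  have hother : ∀ v : V, ∃ w, w ≠ v := fun v => by
    by_cases h : v = v₀
    · exact ⟨w₀, by rw [h]; exact hvw₀.symm⟩
    · exact ⟨v₀, fun h' => h h'.symm⟩
  have hg0 : 0 < g := by
    rcases Nat.eq_zero_or_pos g with h | h
    · have := hg v₀
      rw [h, zero_dvd_iff] at this
      exact absurd this (hdeg v₀).ne'
    · exact h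
  set cc : ℕ → ℕ := fun d => {v | deg v = d}.ncard with hcc
  set cv : V → ℕ → ℕ := fun v d => {w : V | w ≠ v ∧ deg w = d}.ncard with hcv
  set A : V → PowerSeries ℚ := fun v => PowerSeries.mk fun d => (a v d : ℚ) with hA
  -- logarithmic derivatives
  have hLA : ∀ v, LD (A v) (H (cv v)) := by
    intro v
    rw [LD_iff_rec (by simp [H])]
    intro d
    simp only [hA, PowerSeries.coeff_mk]
    have h1 : ((d * a v d : ℕ) : ℚ) = ((∑ m ∈ Finset.Icc 1 d,
      (∑ᶠ w ∈ {w : V | w ≠ v ∧ deg w ∣ m}, deg w) * a v (d - m) : ℕ) : ℚ) := by rw [hrec]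
    push_cast at h1
    rw [h1]
    refine Finset.sum_congr rfl fun m hm => ?_
    have hm0 : m ≠ 0 := by
      have := (Finset.mem_Icc.1 hm).1
      omega
    congr 1
    rw [finsum_deg hfin v hm0]
    simp only [H, PowerSeries.coeff_mk, hcv]
    push_cast
    rfl
  have hcccv : ∀ v d, cc d = cv v d + if d = deg v then 1 else 0 := by
    intro v d
    simp only [hcc, hcv]
    split_ifs with h
    · have h1 : {w : V | deg w = d} = insert v {w : V | w ≠ v ∧ deg w = d} := by
        ext w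
        simp only [Set.mem_ofPred_eq, Set.mem_insert_iff]
        constructor
        · intro h2
          by_cases h3 : w = v
          · exact Or.inl h3
          · exact Or.inr ⟨h3, h2⟩
        · rintro (h2 | h2)
          · rw [h2, h]
          · exact h2.2
      have h2 : v ∉ {w : V | w ≠ v ∧ deg w = d} := fun h3 => h3.1 rfl
      have h3 : {w : V | w ≠ v ∧ deg w = d}.Finite := (hfin d).subset fun w hw => hw.2
      rw [h1, Set.ncard_insert_of_notMem h2 h3]
    · have h1 : {w : V | deg w = d} = {w : V | w ≠ v ∧ deg w = d} := by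
        ext w
        simp only [Set.mem_ofPred_eq]
        constructor
        · intro h2
          refine ⟨fun h3 => h ?_, h2⟩
          rw [← h2, h3]
        · intro h2
          exact h2.2
      rw [h1, add_zero]
  have hHH : ∀ v, (H cc : PowerSeries ℚ) = H (cv v) + T (deg v) := by
    intro v
    ext m
    simp only [H, T, map_add, PowerSeries.coeff_mk]
    by_cases hm : m = 0
    · subst hm
      simp
    have h1 : ∀ d, (cc d : ℚ) = cv v d + if d = deg v then 1 else 0 := fun d => by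
      rw [hcccv v d]
      push_cast
      rfl
    simp only [h1, mul_add, Finset.sum_add_distrib]
    congr 1
    simp only [mul_ite, mul_one, mul_zero]
    rw [Finset.sum_ite_eq']
    simp only [Nat.mem_divisors, hm, ne_eq, not_false_eq_true, and_true, true_and]
  have hone : ∀ n : ℕ, 0 < n →
      PowerSeries.constantCoeff (1 - (PowerSeries.X : PowerSeries ℚ) ^ n) = 1 := by
    intro n hn
    have : n ≠ 0 := hn.ne'
    simp [this]
  have hA0 : ∀ v, PowerSeries.constantCoeff (A v) = 1 := by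
    intro v
    rw [← PowerSeries.coeff_zero_eq_constantCoeff_apply]
    simp only [hA, PowerSeries.coeff_mk, ha0]
    simp
  -- the zeta function
  set Z : PowerSeries ℚ := A v₀ * (1 - (PowerSeries.X : PowerSeries ℚ) ^ deg v₀)⁻¹ with hZ
  have hZ0 : PowerSeries.constantCoeff Z = 1 := by
    rw [hZ, map_mul, hA0, PowerSeries.constantCoeff_inv, hone _ (hdeg v₀)]
    simp
  have hLZ : LD Z (H cc) := by
    have h1 := (hLA v₀).mul ((LD_one_sub_X_pow (F := ℚ) (hdeg v₀)).inv
      (by rw [hone _ (hdeg v₀)]; exact one_ne_zero))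
    rw [neg_neg, ← hHH] at h1
    exact h1
  have hAZ : ∀ v, A v = (1 - (PowerSeries.X : PowerSeries ℚ) ^ deg v) * Z := by
    intro v
    have h1 := (LD_one_sub_X_pow (F := ℚ) (hdeg v)).mul hLZ
    have h2 : -T (deg v) + H cc = (H (cv v) : PowerSeries ℚ) := by
      rw [hHH v]; ring
    rw [h2] at h1
    exact (hLA v).unique h1 (by rw [map_mul, hone _ (hdeg v), hZ0]; simp)
      (by rw [map_mul, hone _ (hdeg v), hZ0, hA0]; simp)
  -- the ideal of polynomials `F` such that `F Z` is a polynomial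
  let J : Ideal ℚ[X] :=
    { carrier := {F | ∃ R : ℚ[X], (F : PowerSeries ℚ) * Z = (R : PowerSeries ℚ)}
      add_mem' := by
        rintro F G ⟨R, hR⟩ ⟨S, hS⟩
        exact ⟨R + S, by rw [Polynomial.coe_add, add_mul, hR, hS, Polynomial.coe_add]⟩
      zero_mem' := ⟨0, by simp⟩
      smul_mem' := by
        rintro F G ⟨R, hR⟩
        exact ⟨F * R, by rw [smul_eq_mul, Polynomial.coe_mul, mul_assoc, hR, Polynomial.coe_mul]⟩ }
  have hJmem : ∀ F, F ∈ J ↔ ∃ R : ℚ[X], (F : PowerSeries ℚ) * Z = (R : PowerSeries ℚ) :=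
    fun F => Iff.rfl
  have hal : ∀ n, ((al n : ℚ[X]) : PowerSeries ℚ) = 1 - PowerSeries.X ^ n := by
    intro n
    unfold al
    rw [Polynomial.coe_sub, Polynomial.coe_one, Polynomial.coe_pow, Polynomial.coe_X]
  have hbe : ∀ n, ((be q n : ℚ[X]) : PowerSeries ℚ) =
      1 - PowerSeries.C ((q : ℚ) ^ n) * PowerSeries.X ^ n := by
    intro n
    unfold be
    rw [Polynomial.coe_sub, Polynomial.coe_one, Polynomial.coe_mul, Polynomial.coe_pow,
      Polynomial.coe_X, Polynomial.coe_C]
  have hpolycrit : ∀ f : PowerSeries ℚ, (∃ D, ∀ d ≥ D, PowerSeries.coeff d f = 0) →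
      ∃ R : ℚ[X], f = (R : PowerSeries ℚ) := by
    rintro f ⟨D, hD⟩
    refine ⟨PowerSeries.trunc D f, ?_⟩
    ext d
    rw [Polynomial.coeff_coe, PowerSeries.coeff_trunc]
    split_ifs with h
    · rfl
    · exact hD d (not_lt.1 h)
  have hmem : ∀ v w, w ≠ v → al (deg v) * be q (deg w) ∈ J := by
    intro v w hwv
    rw [hJmem]
    obtain ⟨D, hD⟩ := hper v w hwv
    have h1 : ((al (deg v) * be q (deg w) : ℚ[X]) : PowerSeries ℚ) * Z =
        A v - PowerSeries.C ((q : ℚ) ^ deg w) * (PowerSeries.X ^ deg w * A v) := by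
      rw [Polynomial.coe_mul, hal, hbe, hAZ v]
      ring
    rw [h1]
    apply hpolycrit
    refine ⟨D + deg w, fun d hd => ?_⟩
    rw [map_sub, PowerSeries.coeff_C_mul, PowerSeries.coeff_X_pow_mul', if_pos (by omega)]
    simp only [hA, PowerSeries.coeff_mk]
    have h2 := hD (d - deg w) (by omega)
    rw [Nat.sub_add_cancel (by omega : deg w ≤ d)] at h2
    rw [h2]
    push_cast
    ring
  -- a minimal pair
  have hgg : al g * be q g ∈ J := by
    let S : Set ℕ := {n | ∃ x y : ℕ, 0 < x ∧ 0 < y ∧ al x * be q y ∈ J ∧ x + y = n}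
    have hSne : S.Nonempty :=
      ⟨_, deg v₀, deg w₀, hdeg v₀, hdeg w₀, hmem v₀ w₀ hvw₀.symm, rfl⟩
    obtain ⟨x, y, hx, hy, hxy, hsum⟩ := Nat.sInf_mem hSne
    have hmin : ∀ x' y', 0 < x' → 0 < y' → al x' * be q y' ∈ J → x ∣ x' ∧ y ∣ y' := by
      intro x' y' hx' hy' hxy'
      have h1 := gcd_closed hq J hx hy hx' hy' hxy hxy'
      have h2 : Nat.gcd x x' + Nat.gcd y y' ∈ S :=
        ⟨_, _, Nat.gcd_pos_of_pos_left _ hx, Nat.gcd_pos_of_pos_left _ hy, h1, rfl⟩
      have h3 := Nat.sInf_le h2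
      have h4 := Nat.le_of_dvd hx (Nat.gcd_dvd_left x x')
      have h5 := Nat.le_of_dvd hy (Nat.gcd_dvd_left y y')
      have h6 : Nat.gcd x x' = x := by omega
      have h7 : Nat.gcd y y' = y := by omega
      exact ⟨h6 ▸ Nat.gcd_dvd_right x x', h7 ▸ Nat.gcd_dvd_right y y'⟩
    have hxg : x ∣ g := by
      apply hg'
      intro v
      obtain ⟨w, hw⟩ := hother v
      exact (hmin _ _ (hdeg v) (hdeg w) (hmem v w hw)).1
    have hyg : y ∣ g := by
      apply hg'
      intro w
      obtain ⟨v, hv⟩ := hother w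
      exact (hmin _ _ (hdeg v) (hdeg w) (hmem v w hv.symm)).2
    obtain ⟨U, hU⟩ := al_dvd hxg
    obtain ⟨W, hW⟩ := be_dvd q hyg
    have : al g * be q g = (U * W) * (al x * be q y) := by rw [hU, hW]; ring
    rw [this]
    exact J.mul_mem_left _ hxy
  obtain ⟨R, hR⟩ := (hJmem _).1 hgg
  have hFmap : (FF q g).map (Int.castRingHom ℚ) = al g * be q g := by
    unfold FF al be
    simp
  -- integrality of the coefficients of `Z`
  have hZint : ∃ z : PowerSeries ℤ, PowerSeries.map (Int.castRingHom ℚ) z = Z := by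
    let u : PowerSeries ℤ := PowerSeries.invOfUnit (1 - PowerSeries.X ^ deg v₀) 1
    have hu : (1 - (PowerSeries.X : PowerSeries ℤ) ^ deg v₀) * u = 1 := by
      apply PowerSeries.mul_invOfUnit
      have : deg v₀ ≠ 0 := (hdeg v₀).ne'
      simp [this]
    refine ⟨PowerSeries.mk (fun d => (a v₀ d : ℤ)) * u, ?_⟩
    have h1 := congrArg (PowerSeries.map (Int.castRingHom ℚ)) hu
    rw [map_mul, map_sub, map_one, map_pow, PowerSeries.map_X] at h1
    have h2 : PowerSeries.map (Int.castRingHom ℚ) (PowerSeries.mk fun d => (a v₀ d : ℤ)) =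
        A v₀ := by
      ext d
      simp [hA]
    have h3 : PowerSeries.map (Int.castRingHom ℚ) u =
        (1 - (PowerSeries.X : PowerSeries ℚ) ^ deg v₀)⁻¹ := by
      rw [PowerSeries.eq_inv_iff_mul_eq_one (by rw [hone _ (hdeg v₀)]; exact one_ne_zero),
        mul_comm]
      exact h1
    rw [map_mul, hZ, h2, h3]
  obtain ⟨z, hz⟩ := hZint
  -- the numerator
  have hTex : ∃ T : ℤ[X], (ps T : PowerSeries ℚ) = ps (FF q g) * Z := by
    have h1 : (ps (FF q g) : PowerSeries ℚ) * Z = (R : PowerSeries ℚ) := by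
      unfold ps
      rw [hFmap]
      exact hR
    let f : PowerSeries ℤ := ((FF q g : ℤ[X]) : PowerSeries ℤ) * z
    have hf : PowerSeries.map (Int.castRingHom ℚ) f = ps (FF q g) * Z := by
      simp only [f, map_mul, hz]
      congr 1
      ext d
      unfold ps
      rw [PowerSeries.coeff_map, Polynomial.coeff_coe, Polynomial.coeff_coe, Polynomial.coeff_map]
    refine ⟨PowerSeries.trunc (R.natDegree + 1) f, ?_⟩
    rw [← hf]
    ext d
    unfold ps
    rw [Polynomial.coeff_coe, Polynomial.coeff_map, PowerSeries.coeff_trunc,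
      PowerSeries.coeff_map]
    split_ifs with h
    · rfl
    · have h2 : PowerSeries.coeff d (PowerSeries.map (Int.castRingHom ℚ) f) = 0 := by
        rw [hf, h1, Polynomial.coeff_coe]
        exact Polynomial.coeff_eq_zero_of_natDegree_lt (by omega)
      rw [PowerSeries.coeff_map] at h2
      rw [h2]
      simp
  obtain ⟨T', hT'⟩ := hTex
  refine ⟨T', ?_, ?_⟩
  · intro N
    change (X : ℤ[X]) ^ (N + 1) ∣ T' * ∏ d ∈ Finset.Icc 1 N, (1 - (X : ℤ[X]) ^ d) ^ cc d - FF q g
    rw [Polynomial.X_pow_dvd_iff]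
    intro m hm
    set G : PowerSeries ℚ := ∏ d ∈ Finset.Icc 1 N, (1 - (PowerSeries.X : PowerSeries ℚ) ^ d) ^ cc d
      with hG
    have hZG : ∀ j < N + 1, PowerSeries.coeff j (Z * G - 1) = 0 := by
      intro j hj
      have hL := hLZ.mul (LD_G (F := ℚ) cc N)
      unfold LD at hL
      have h2 := congrArg (PowerSeries.coeff j) hL
      rw [coeff_th] at h2
      have h3 : (PowerSeries.X : PowerSeries ℚ) ^ (N + 1) ∣
          (H cc + ∑ d ∈ Finset.Icc 1 N, (cc d : PowerSeries ℚ) * (-T d)) * (Z * G) :=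
        (dvd_H_add cc N).mul_right _
      rw [(PowerSeries.X_pow_dvd_iff.1 h3) j hj] at h2
      by_cases hj0 : j = 0
      · subst hj0
        rw [PowerSeries.coeff_zero_eq_constantCoeff_apply, map_sub, map_mul, hZ0, hG,
          constantCoeff_G]
        simp
      · have h4 : (j : ℚ) ≠ 0 := by exact_mod_cast hj0
        have h5 := (mul_eq_zero.1 h2).resolve_left h4
        rw [map_sub, PowerSeries.coeff_one, if_neg hj0, sub_zero]
        exact h5
    have h1 : (ps (T' * ∏ d ∈ Finset.Icc 1 N, (1 - (X : ℤ[X]) ^ d) ^ cc d - FF q g) :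
        PowerSeries ℚ) = ps (FF q g) * (Z * G - 1) := by
      rw [ps_sub, ps_mul, ps_G, hT']
      ring
    have h2 : PowerSeries.coeff m (ps (FF q g) * (Z * G - 1) : PowerSeries ℚ) = 0 := by
      rw [PowerSeries.coeff_mul]
      apply Finset.sum_eq_zero
      rintro ⟨i, j⟩ hij
      rw [Finset.HasAntidiagonal.mem_antidiagonal] at hij
      have hij' : i + j = m := hij
      show _ * PowerSeries.coeff j (Z * G - 1) = 0
      rw [hZG j (by omega), mul_zero]
    rw [← h1] at h2
    unfold ps at h2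
    rw [Polynomial.coeff_coe, Polynomial.coeff_map] at h2
    have h3 : ((_ : ℤ) : ℚ) = 0 := h2
    exact_mod_cast h3
  · -- `T(1/q) ≠ 0`
    intro h0
    have hq0 : (q : ℚ) ≠ 0 := by
      have : q ≠ 0 := by omega
      exact_mod_cast this
    -- divisibility by `1 - q X`
    have hdvd : (1 - C (q : ℚ) * X) ∣ T'.map (Int.castRingHom ℚ) := by
      have h1 : (X - C (1 / (q : ℚ))) ∣ T'.map (Int.castRingHom ℚ) :=
        Polynomial.dvd_iff_isRoot.2 h0
      have h2 : (1 - C (q : ℚ) * X : ℚ[X]) = C (-(q : ℚ)) * (X - C (1 / (q : ℚ))) := by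
        rw [mul_sub, ← C_mul]
        have : -(q : ℚ) * (1 / (q : ℚ)) = -1 := by field_simp
        rw [this, C_neg, C_neg, C_1]
        ring
      rw [h2]
      have hu : IsUnit (C (-(q : ℚ)) : ℚ[X]) :=
        Polynomial.isUnit_C.2 (isUnit_iff_ne_zero.2 (neg_ne_zero.2 hq0))
      exact (hu.mul_left_dvd).2 h1
    obtain ⟨Q, hQ⟩ := hdvd
    set S : ℚ[X] := ∑ i ∈ Finset.range g, (C (q : ℚ) * X) ^ i with hS
    have hbS : be q g = (1 - C (q : ℚ) * X) * S := by
      rw [hS, mul_neg_geom_sum]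
      unfold be
      rw [mul_pow, C_pow]
    have hQS : (Q : PowerSeries ℚ) = (al g : ℚ[X]) * (S : PowerSeries ℚ) * Z := by
      have h1 : ((1 - C (q : ℚ) * X : ℚ[X]) : PowerSeries ℚ) * (Q : PowerSeries ℚ) =
          ((1 - C (q : ℚ) * X : ℚ[X]) : PowerSeries ℚ) *
            ((al g : ℚ[X]) * (S : PowerSeries ℚ) * Z) := by
        rw [← Polynomial.coe_mul, ← hQ]
        have h2 : ((T'.map (Int.castRingHom ℚ) : ℚ[X]) : PowerSeries ℚ) = ps (FF q g) * Z := hT'
        rw [h2]
        unfold ps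
        rw [hFmap, hbS, Polynomial.coe_mul, Polynomial.coe_mul]
        ring
      have h3 : ((1 - C (q : ℚ) * X : ℚ[X]) : PowerSeries ℚ) ≠ 0 := by
        intro h4
        have h5 := congrArg (PowerSeries.coeff 0) h4
        rw [Polynomial.coeff_coe] at h5
        simp at h5
      exact mul_left_cancel₀ h3 h1
    have hAS : ∀ v, ((al (deg v) * Q : ℚ[X]) : PowerSeries ℚ) =
        (al g : ℚ[X]) * ((S : PowerSeries ℚ) * A v) := by
      intro v
      rw [Polynomial.coe_mul, hQS, hAZ v, hal (deg v)]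
      ring
    -- the coefficients of `S A_v` at multiples of `g`
    have hcvg : ∀ v d, ¬ g ∣ d → cv v d = 0 := by
      intro v d hd
      simp only [hcv]
      have : {w : V | w ≠ v ∧ deg w = d} = ∅ := by
        ext w
        simp only [Set.mem_ofPred_eq, Set.mem_empty_iff_false, iff_false, not_and]
        intro _ h
        exact hd (h ▸ hg w)
      rw [this, Set.ncard_empty]
    have hsuppA : ∀ v d, ¬ g ∣ d → PowerSeries.coeff d (A v) = 0 := fun v d hd =>
      coeff_eq_zero_of_not_dvd (hLA v) (hcvg v) d hd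
    have hSA : ∀ v k, PowerSeries.coeff (g * k) ((S : PowerSeries ℚ) * A v) =
        PowerSeries.coeff (g * k) (A v) := by
      intro v k
      have h1 : ((S : ℚ[X]) : PowerSeries ℚ) = ∑ i ∈ Finset.range g,
          PowerSeries.C ((q : ℚ) ^ i) * PowerSeries.X ^ i := by
        rw [hS, ← Polynomial.coeToPowerSeries.ringHom_apply, map_sum]
        refine Finset.sum_congr rfl fun i _ => ?_
        rw [Polynomial.coeToPowerSeries.ringHom_apply, Polynomial.coe_pow, Polynomial.coe_mul,
          Polynomial.coe_C, Polynomial.coe_X, mul_pow, map_pow]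
      rw [h1, Finset.sum_mul, map_sum]
      rw [Finset.sum_eq_single_of_mem 0 (Finset.mem_range.2 hg0)]
      · simp
      · intro i hi hi0
        rw [Finset.mem_range] at hi
        rw [mul_assoc, PowerSeries.coeff_C_mul, PowerSeries.coeff_X_pow_mul']
        split_ifs with h
        · rw [hsuppA, mul_zero]
          intro hdv
          have h2 : g ∣ i := (Nat.dvd_sub_iff_right h (Dvd.intro k rfl)).1 hdv
          have := Nat.le_of_dvd (Nat.pos_of_ne_zero hi0) h2
          omega
        · rw [mul_zero]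
    -- so `a v` is eventually constant along the multiples of `g`
    have hconst : ∀ v, ∃ K, ∀ k ≥ K, a v (g * (k + 1)) = a v (g * k) := by
      intro v
      refine ⟨(al (deg v) * Q).natDegree + 1, fun k hk => ?_⟩
      have h1 := congrArg (PowerSeries.coeff (g * (k + 1))) (hAS v)
      rw [Polynomial.coeff_coe, Polynomial.coeff_eq_zero_of_natDegree_lt (by
        have : k + 1 ≤ g * (k + 1) := Nat.le_mul_of_pos_left _ hg0
        omega), hal g, sub_mul, one_mul, map_sub, PowerSeries.coeff_X_pow_mul', if_pos (by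
        have : g * 1 ≤ g * (k + 1) := Nat.mul_le_mul_left _ (by omega)
        omega)] at h1
      have h2 : g * (k + 1) - g = g * k := by
        rw [mul_add, mul_one, Nat.add_sub_cancel]
      rw [h2, hSA, hSA] at h1
      simp only [hA, PowerSeries.coeff_mk] at h1
      have h3 : (a v (g * (k + 1)) : ℚ) = a v (g * k) := by linarith
      exact_mod_cast h3
    obtain ⟨K, hK⟩ := hconst v₀
    have hK' : ∀ j, a v₀ (g * (K + j)) = a v₀ (g * K) := by
      intro j
      induction j with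
      | zero => rfl
      | succ j ih =>
        rw [← ih, ← add_assoc]
        exact hK (K + j) (by omega)
    obtain ⟨D, hD⟩ := hper v₀ w₀ hvw₀.symm
    obtain ⟨e, he⟩ := hg w₀
    have he0 : 0 < e := by
      rcases Nat.eq_zero_or_pos e with h | h
      · rw [h, mul_zero] at he
        exact absurd he (hdeg w₀).ne'
      · exact h
    -- the constant is zero
    have h1 := hD (g * (K + D)) (by
      have : D ≤ g * (K + D) := by
        calc D ≤ K + D := Nat.le_add_left _ _
          _ ≤ g * (K + D) := Nat.le_mul_of_pos_left _ hg0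
      exact this)
    have h2 : g * (K + D) + deg w₀ = g * (K + (D + e)) := by rw [he]; ring
    rw [h2, hK', hK'] at h1
    have h3 : a v₀ (g * K) = 0 := by
      by_contra hne
      have h4 : 1 < q ^ deg w₀ := Nat.one_lt_pow (hdeg w₀).ne' (by omega)
      have h5 : 0 < a v₀ (g * K) := Nat.pos_of_ne_zero hne
      nlinarith
    -- but `a v₀` is positive at multiples of `deg w₀`
    have h4 : 0 < PowerSeries.coeff (deg w₀ * (K + 1)) (A v₀) := by
      apply coeff_pos (hLA v₀) (hA0 v₀) (Dvd.intro _ rfl)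
      · exact Nat.mul_ne_zero (hdeg w₀).ne' (Nat.succ_ne_zero _)
      · simp only [hcv]
        have h6 : {w : V | w ≠ v₀ ∧ deg w = deg w₀}.Finite :=
          (hfin (deg w₀)).subset fun w hw => hw.2
        exact ((Set.ncard_pos h6).2 ⟨w₀, hvw₀.symm, rfl⟩).ne'
    simp only [hA, PowerSeries.coeff_mk] at h4
    have h5 : deg w₀ * (K + 1) = g * (K + (e * (K + 1) - K)) := by
      rw [he]
      have : K ≤ e * (K + 1) := by nlinarith
      rw [Nat.add_sub_cancel' this]
      ring
    rw [h5, hK', h3] at h4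
    simp at h4

end Z3

end Pool.Agent.Helper92
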